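import Pool.Agent.H21.QW.Leg
import Pool.Agent.H5.FAD.Sum
import Pool.Agent.H89.OCK.Stage

/-!
# The combinatorial half of row 366: data and literal statements

`QD` is a bipartite graph of times `TT` and labels `VV` with weights, the increments `g`, the values
`E`, `be`. A candidate is a legal tuple of four labels `a 0, a 1; a' 0, a' 1` of one side with an
exact (`true`) or a real (`false`) relation of the increments of the positions; its level `l` is any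
number with `|increment| * 2 ^ l ≤ 2 ^ (X + 1)`, its defect is `δ` (nothing is normalised).
-/

set_option autoImplicit false

namespace Pool.QC

open Finset Real
open Pool.Agent.H49.Ent Pool.Agent.H32.Dense Pool.STK Pool.KS6 Pool.RC21

/-- The increment of `f` along a pair of labels. -/
def inc {α M : Type} [AddCommGroup M] (f : α → M) (a : Fin 2 → α) : M := f (a 0) - f (a 1)

/-- The relation of a candidate of the class `w`, level `l`, and its defect `δ`. -/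
def PairC {α : Type} {c d : ℕ} (X m l : ℕ) (w : Bool) (x : α → Fin d → ℤ) (u : Fin d)
    (f : α → Fin c → ℝ) (a a' : Fin 2 → α) (δ : Fin c → ℝ) : Prop :=
  (∀ j, j ≠ u → inc x a j = 0 ∧ inc x a' j = 0) ∧ |inc x a u| * 2 ^ l ≤ 2 ^ (X + 1) ∧
  ((w = true ∧ inc x a u = 2 ^ m * inc x a' u ∧ δ = inc f a - (2 : ℝ) ^ m • inc f a') ∨
   (w = false ∧ ∃ v : ℤ, |v| ≤ 2 ^ X ∧ |2 ^ X * inc x a' u - v * inc x a u| ≤ 4 * 2 ^ X ∧
    δ = inc f a' - ((v : ℝ) / 2 ^ X) • inc f a))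

/-- The data. -/
structure QD (c k : ℕ) where
  TT : Type
  VV : Type
  iT : Fintype TT
  iV : Fintype VV
  mu : TT → ℝ
  vp : VV → ℝ
  tau : TT → ℤ
  y : VV → Fin k → ℤ
  E : TT → Fin k → Fin c → ℝ
  be : VV → Fin c → ℝ
  g : TT → VV → Fin c → ℤ
  a0 : TT → Fin c → ℝ
  b0 : VV → Fin c → ℝ
  ref : TT → Fin c → ℤ
  adj : TT → VV → Prop
  A : Set (Fin c → ℤ)

attribute [instance] QD.iT QD.iV

variable {c k : ℕ}

open Classical in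
/-- The weight of the common neighbours of a family of labels. -/
noncomputable def QD.cnT (D : QD c k) {J : Type} (s : J → D.VV) : ℝ :=
  ∑ t, if ∀ j, D.adj t (s j) then D.mu t else 0

open Classical in
/-- The weight of the common neighbours of a family of times. -/
noncomputable def QD.cnV (D : QD c k) {J : Type} (s : J → D.TT) : ℝ :=
  ∑ v, if ∀ j, D.adj (s j) v then D.vp v else 0

open Classical in
/-- The hypotheses on the graph. -/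
structure QD.Ok (D : QD c k) (X : ℕ) (C q : ℝ) : Prop where
  mu_nn : ∀ t, 0 ≤ D.mu t
  mu_le : ∑ t, D.mu t ≤ 1
  vp_nn : ∀ v, 0 ≤ D.vp v
  vp_le : ∑ v, D.vp v ≤ 1
  mu_sp : ∀ a : ℤ, ∑ t, (if D.tau t = a then D.mu t else 0) ≤ C / 2 ^ X
  vp_sp : ∀ a : Fin k → ℤ, ∑ v, (if D.y v = a then D.vp v else 0) ≤ C / 2 ^ (k * X)
  tau_r : ∀ t, 0 ≤ D.tau t ∧ D.tau t < 2 ^ X
  y_r : ∀ v j, 0 ≤ D.y v j ∧ D.y v j < 2 ^ X
  E_b : ∀ t u i, |D.E t u i| ≤ C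
  be_b : ∀ v i, |D.be v i| ≤ C
  deg_T : ∀ t, q ≤ D.cnV (fun _ : Unit => t)
  deg_V : ∀ v, q ≤ D.cnT (fun _ : Unit => v)
  g_eq : ∀ t v, D.adj t v → ∀ i, |(D.g t v i : ℝ) -
    (D.tau t * D.be v i - ∑ u, D.E t u i * D.y v u + D.a0 t i + D.b0 v i)| ≤ C
  g_A : ∀ t v, D.adj t v → D.g t v - D.ref t ∈ D.A

/-- The candidates of level `l` and class `w` with the defect `δ`. -/
def QD.Cand (D : QD c k) (X m : ℕ) (q1 : ℝ) (l : ℕ) (w : Bool) (δ : Fin c → ℝ) : Prop :=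
  ∃ u : Fin k,
    (∃ a a' : Fin 2 → D.TT, q1 ≤ D.cnV (Sum.elim a a') ∧
      PairC X m l w (fun t (_ : Fin 1) => D.tau t) 0 (fun t => D.E t u) a a' δ) ∨
    (∃ a a' : Fin 2 → D.VV, q1 ≤ D.cnT (Sum.elim a a') ∧ PairC X m l w D.y u D.be a a' δ)

/-- The weight of a class. -/
noncomputable def lam (m : ℕ) (w : Bool) : ℝ := if w then 1 else (2 ^ m)⁻¹

/-- `A` is admissible for `R`: combinations of elements of `A` are absorbed. -/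
def Absb {Ω : Type} [Fintype Ω] (p : Ω → ℝ) (R : Ω → Fin c → ℤ) (A : Set (Fin c → ℤ)) (ε : ℝ) :
    Prop :=
  ∀ (Γ : Type) (_ : Fintype Γ) (q : Γ → ℝ), IsLaw q → ∀ (n : ℕ) (x : Fin n → Γ → Fin c → ℤ),
    (∀ i ω, 0 < q ω → x i ω ∈ A) → ∀ s : Fin n → ℤ,
      H (pr q p) (fun w => R w.2 + ∑ i, s i • x i w.1) ≤ H p R + (1 + ∑ i, |(s i : ℝ)|) * ε

/-- `B` (levels `l`, classes `w`, defects `δ`) is `kap`-optimal among the candidates of level at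
most `Q`. -/
def QD.Opt (D : QD c k) (X m : ℕ) (q1 : ℝ) (Q : ℕ) (kap : ℝ) (l : Fin c → ℕ) (w : Fin c → Bool)
    (δ : Fin c → Fin c → ℝ) : Prop :=
  (∀ b, l b ≤ Q ∧ (D.Cand X m q1 (l b) (w b) (δ b) ∨
    (l b = 0 ∧ w b = true ∧ ∀ i, |δ b i| ≤ (2 ^ X)⁻¹))) ∧
  ∀ l' ≤ Q, ∀ (w' : Bool) (δ' : Fin c → ℝ), D.Cand X m q1 l' w' δ' →
    ∃ x : Fin c → ℝ, (∀ b, |x b| ≤ kap) ∧
      (2 ^ l' * lam m w') • δ' = ∑ b, (x b * (2 ^ l b * lam m (w b))) • δ b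

/-- The regularised law: uniform digits are added. -/
noncomputable def rg {Ω : Type} (p : Ω → ℝ) (c Y : ℕ) (ω : Ω × (Fin c → Fin (2 ^ Y))) : ℝ :=
  p ω.1 / (2 ^ Y) ^ c

/-- The regularised variable, in units `2 ^ X`. -/
noncomputable def xr {Ω : Type} (R : Ω → Fin c → ℤ) (X Y : ℕ) (ω : Ω × (Fin c → Fin (2 ^ Y)))
    (i : Fin c) : ℝ := (R ω.1 i + (ω.2 i : ℕ) / 2 ^ Y) / 2 ^ X

/-- The matrix of the defects. -/
def mat (δ : Fin c → Fin c → ℝ) : Matrix (Fin c) (Fin c) ℝ := Matrix.of fun i b => δ b i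

/-- **(SIG)** An optimal family of candidates is absorbed. -/
def SigStmt (c k : ℕ) : Prop :=
  ∃ C2 : ℝ, ∀ (K m : ℕ) (C kap C1 : ℝ), 0 < K → 1 ≤ C → 1 ≤ kap → 1 ≤ C1 →
    64 * (c + 1) * kap * 4 ^ K ≤ 2 ^ m → ∃ C3 : ℝ,
    ∀ (D : QD c k) (X : ℕ) (q ε : ℝ), 0 < q → q ≤ 1 / 2 → 0 ≤ ε → D.Ok X C q →
    ∀ (Ω : Type) (_ : Fintype Ω) (p : Ω → ℝ) (R : Ω → Fin c → ℤ), IsLaw p → Absb p R D.A ε →
    ∀ (W Q : ℕ), K * W + m ≤ Q → Q ≤ X → ∀ (l : Fin c → ℕ) (w : Fin c → Bool)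
      (δ : Fin c → Fin c → ℝ), D.Opt X m (q ^ C1) Q kap l w δ → (mat δ).det ≠ 0 →
    ∀ Y : ℕ, Y ≤ 4 * X → (∀ i, ∑ j, |((mat δ)⁻¹) i j| * 2 ^ (K * W) ≤ 2 ^ (X + Y)) →
      Pool.FAD.DF (rg p c Y) (fun _ => (2 ^ (K * W) : ℝ)⁻¹ • mat δ) (fun _ => mat δ) (xr R X Y)
        (fun _ => ()) ≤ C3 * (1 + ε + Real.log (1 / q)) + X * (C2 / K + C2 / C1)

/-! ### Fresh labels -/

/-- The digits of the increment of a fresh tuple `ω` from the fixed label `b`. -/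
noncomputable def dgt {α : Type} {d : ℕ} (x : α → Fin d → ℤ) (u : Fin d) (X n : ℕ) (b : α)
    (ω : Fin 3 → α) : ℤ :=
  ⌊(2 : ℝ) ^ n * ((1 + (x (ω 0) u - x b u : ℤ) / 2 ^ X) / 2)⌋

open Classical in
/-- **(FRESH)** A law of three labels `ω 0, ω 1, ω 2` and fixed labels `b 0, b 1, b 2`, all adjacent
to all `s j`, with `x (ω 0) - x (b 0) = 2 ^ m * (x (ω 1) - x (b 1))` and
`x (ω 2) - x (b 2) ≈ (v / 2 ^ X) * (x (ω 1) - x (b 1))`. Two copies with the same digits are legal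
together. -/
def FreshStmt : Prop :=
  ∃ C4 : ℝ, ∀ (d m K : ℕ) (C C1 : ℝ), 0 < K → 1 ≤ C → 1 ≤ C1 → ∃ C3 : ℝ,
    ∀ (α β : Type) (_ : Fintype α) (_ : Fintype β) (ma : α → ℝ) (mb : β → ℝ), (∀ t, 0 ≤ ma t) →
    ∑ t, ma t ≤ 1 → (∀ t, 0 ≤ mb t) → ∑ t, mb t ≤ 1 →
    ∀ (adj : β → α → Prop) (x : α → Fin d → ℤ) (u : Fin d) (X : ℕ) (q : ℝ), 0 < q → q ≤ 1 / 2 →
    (∀ a, ∑ t, (if x t = a then ma t else 0) ≤ C / 2 ^ (d * X)) →
    (∀ t j, 0 ≤ x t j ∧ x t j < 2 ^ X) →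
    ∀ (J : Type) (s : J → β), q ^ C1 ≤ ∑ t, (if ∀ j, adj (s j) t then ma t else 0) →
    (∀ t, q ≤ ∑ b, if adj b t then mb b else 0) → ∀ v : ℤ, |v| ≤ 2 ^ X →
    ∀ W : ℕ, K * W + m ≤ X →
    ∃ (b : Fin 3 → α) (P : (Fin 3 → α) → ℝ), IsLaw P ∧
      (∀ i j, adj (s j) (b i)) ∧ (∀ ω, 0 < P ω → ∀ i j, adj (s j) (ω i)) ∧
      (∀ ω, 0 < P ω → (∀ i j, j ≠ u → x (ω i) j = x (b i) j) ∧
        x (ω 0) u - x (b 0) u = 2 ^ m * (x (ω 1) u - x (b 1) u) ∧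
        |2 ^ X * (x (ω 2) u - x (b 2) u) - v * (x (ω 1) u - x (b 1) u)| ≤ 2 ^ X) ∧
      (∀ n, n + m ≤ X → n * Real.log 2 - C3 * (1 + Real.log (1 / q)) ≤
        H P (dgt x u X n (b 0))) ∧
      Ex (dbl P (dgt x u X 0 (b 0))) (fun z =>
        ind (¬ q ^ C1 ≤ ∑ t, if ∀ i, adj t (z.1 i) ∧ adj t (z.2 i) then mb t else 0)) ≤ C4 / C1 ∧
      ∑ w ∈ Finset.range W, Ex (dbl P (dgt x u X (K * w) (b 0))) (fun z =>
        ind (¬ q ^ C1 ≤ ∑ t, if ∀ i, adj t (z.1 i) ∧ adj t (z.2 i) then mb t else 0)) ≤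
          C4 / C1 * W

/-- **(COMB)** The conclusion: a functional which nearly kills all candidates. -/
def CombStmt (c k : ℕ) : Prop :=
  ∀ (n : Fin c) (c0 x1 C : ℝ), 0 < x1 → x1 < c0 → 1 ≤ C →
  ∃ (m : ℕ) (ka ε0 C1 : ℝ) (X0 : ℕ), 0 < ka ∧ 0 < ε0 ∧ 1 ≤ C1 ∧
  ∀ (D : QD c k) (X : ℕ), X0 ≤ X → D.Ok X C ((2 : ℝ) ^ (-(ka * X))) →
  ∀ (Ω : Type) (_ : Fintype Ω) (p : Ω → ℝ) (R : Ω → Fin c → ℤ), IsLaw p →
    (∀ ω i, |(R ω i : ℝ)| ≤ C * 2 ^ X) → Absb p R D.A (ε0 * X) →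
    CH p (fun ω => R ω n) (fun ω (i : {i : Fin c // i ≠ n}) => R ω i) ≤ (1 - c0) * X * Real.log 2 →
    ∃ ν : Fin c → ℝ, ν n = 1 ∧ (∀ i, |ν i| ≤ 2 ^ X) ∧
      ∀ (w : Bool) (δ : Fin c → ℝ), D.Cand X m (((2 : ℝ) ^ (-(ka * X))) ^ C1) 0 w δ →
        |∑ i, ν i * δ i| ≤ (2 : ℝ) ^ (-(x1 * X))

end Pool.QC
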