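import Pool.Agent.H21.QW.Goal

/-!
# Most stars have a graph

`star_qd`: except with small probability, the world and the times of a star belong to a graph `QD`
whose set of increments is absorbed by the block at the world.
-/

set_option autoImplicit false
set_option linter.unusedSectionVars false
set_option linter.unusedVariables false

namespace Pool.RC21

open Finset
open Pool.Agent.H49.Ent Pool.Agent.H32.Dense Pool.CH30 Pool.STK Pool.KS6

variable {Ω₀ : Type} [Fintype Ω₀] {B A τ : Type} {c k : ℕ}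
  {p₀ : Ω₀ → ℝ} {b₀ : Ω₀ → B} {n₀ : Ω₀ → Fin c → ℤ}

/-- The conclusion at the world `e` and the times `th`. -/
def GoodQ (X : Blk p₀ b₀ n₀) (ε C q : ℝ) (Xd : ℕ) {J : ℕ} (tau : τ → ℤ)
    (E : τ → Fin k → Fin c → ℝ) (e : (Fin c → ℤ) × B) (th : Fin J → τ) : Prop :=
  ∃ D : Pool.QC.QD c k, D.Ok Xd C q ∧ Pool.QC.Absb (rw' X e) X.y D.A ε ∧ ∃ sp : Fin J → D.TT,
    (∀ j, D.tau (sp j) = tau (th j) ∧ D.E (sp j) = E (th j)) ∧ (∀ j l, D.adj (sp j) l) ∧
    q ≤ D.cnV sp

section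

variable (hp : ∀ ω, 0 ≤ p₀ ω) (V : Ω₀ → A) (T : Ω₀ → τ) (g : τ → A → Fin c → ℤ)
  (X : Blk p₀ b₀ n₀)

/-- **Absorption at a fixed world.** -/
theorem absb_leg {t ε : ℝ} (ht : 0 ≤ t) {e : (Fin c → ℤ) × B} (hr : IsLaw (rw' X e))
    (htw : IsLaw (tw V T g X e)) (hε : D1 X e ≤ ε) :
    Pool.QC.Absb (rw' X e) X.y (LegE V T g X t e) (ε + t) := by
  intro Γ _ q hq n x hx s
  have h0 := om_nn (ρ := rw' X e) (N := X.y) (θ := tw V T g X e) (ph V T g X) hr.nonneg htw.nonneg
  have hs := om_sum (ρ := rw' X e) (N := X.y) (θ := tw V T g X e) (ph V T g X) hr.nonneg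
    hr.sum_one htw.nonneg htw.sum_one
  have hd : H (pr (rw' X e) (rw' X e)) (fun w => X.y w.1 - X.y w.2) ≤ H (rw' X e) X.y + ε := by
    unfold D1 at hε
    linarith
  have k := leg_sum' hr.nonneg hr.sum_one h0 hs hd hq.nonneg hq.sum_one Finset.univ x s
    (t := t) (fun i _ γ hγ => hx i γ hγ)
  refine k.trans ?_
  nlinarith

include hp in
open Classical in
/-- **The graph of a star.** -/
theorem star_one [Fintype τ] [Fintype A] (Xd : ℕ) {tau : τ → ℤ} {y : A → Fin k → ℤ}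
    (htau : ∀ t, 0 ≤ tau t ∧ tau t < 2 ^ Xd) (hy : ∀ l j, 0 ≤ y l j ∧ y l j < 2 ^ Xd)
    (E : τ → Fin k → Fin c → ℝ) (be : A → Fin c → ℝ) (a0 : τ → Fin c → ℝ)
    (b0 : A → Fin c → ℝ) {C : ℝ} (hC : 1 ≤ C) (hE : ∀ t u i, |E t u i| ≤ C)
    (hbe : ∀ l i, |be l i| ≤ C)
    (hg : ∀ t l i, |(g t l i : ℝ) -
      (tau t * be l i - ∑ u, E t u i * y l u + a0 t i + b0 l i)| ≤ C)
    {t ε K0 q : ℝ} (ht : 0 ≤ t) (hK0 : 0 ≤ K0) (hq : 0 < q)
    (hq1 : 4 * (K0 + Real.log 2) ≤ Real.log (1 / (2 * q))) (hq2 : 2 * q ≤ 1) (J : ℕ)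
    {v : Fin (J + 1) → X.Ω × (Ω₀ × Ω₀)} (hv : 0 < st V T g X J v)
    (c1 : kk V T g X k Xd tau y J (kE V T X J v) ≤ K0)
    (c2 : Ex (cond (st V T g X J) (kE V T X J) (kE V T X J v))
      (fun v => ind (badS V T g X t J v)) ≤ 1 / 2)
    (c3 : D1 X (eE X (v 0)) ≤ ε) :
    GoodQ X (ε + t) C q Xd tau E (eE X (v 0)) (fun j : Fin J => T (v j.succ).2.1) := by
  have h0 := st_nn hp V T g X J
  have he := ed_nn hp V T g X
  have hv0 := (st_pos hp V T g X hv 0).1
  have hl : IsLaw (cond (st V T g X J) (kE V T X J) (kE V T X J v)) :=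
    cond_law h0 (kE V T X J) hv
  have hbad : (∑ v', if ¬ Pool.QC.Gr g (LegE V T g X t (eE X (v 0)))
      (fun j : Fin J => T (v j.succ).2.1) (fun s => g s (V (v 0).2.2))
      (fun j : Fin J => g (T (v j.succ).2.1) (V (v j.succ).2.2)) (tS T X J v') (vS V X J v')
      then cond (st V T g X J) (kE V T X J) (kE V T X J v) v' else 0) ≤ 1 / 2 := by
    refine le_trans ?_ c2
    unfold Ex
    refine Finset.sum_le_sum fun v' _ => ?_
    by_cases hp' : 0 < cond (st V T g X J) (kE V T X J) (kE V T X J v) v'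
    · obtain ⟨hs, hk⟩ := (cond_pos_iff h0 (kE V T X J) (kE V T X J v) v').1 hp'
      have k1 := Prod.ext_iff.mp hk
      have k2 := Prod.ext_iff.mp k1.1
      have k3 : V (v' 0).2.2 = V (v 0).2.2 := k2.1
      have k4 : ∀ j : Fin J, V (v' j.succ).2.2 = V (v j.succ).2.2 ∧
          T (v' j.succ).2.1 = T (v j.succ).2.1 := fun j =>
        Prod.ext_iff.mp (congrFun k2.2 j)
      have k5 : eE X (v' 0) = eE X (v 0) := k1.2
      by_cases hb : badS V T g X t J v'
      · have h4 : ind (badS V T g X t J v') = 1 := if_pos hb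
        simp only [h4, mul_one]
        split_ifs <;> first | exact le_rfl | exact hp'.le
      · have h5 : Pool.QC.Gr g (LegE V T g X t (eE X (v 0)))
            (fun j : Fin J => T (v j.succ).2.1) (fun s => g s (V (v 0).2.2))
            (fun j : Fin J => g (T (v j.succ).2.1) (V (v j.succ).2.2)) (tS T X J v')
            (vS V X J v') := by
          unfold badS at hb
          push Not at hb
          refine ⟨?_, fun j => ?_⟩
          · have a1 := hb 0
            rw [k5] at a1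
            unfold ph at a1
            rw [k3] at a1
            exact a1
          · have a1 := hb j.succ
            rw [k5] at a1
            unfold ph at a1
            have a2 := (st_pos hp V T g X hs j.succ).2
            have a3 : V (v' j.succ).2.1 = V (v' 0).2.1 := (Prod.ext_iff.mp a2).2
            rw [(k4 j).1, (k4 j).2, a3] at a1
            exact a1
        rw [if_neg (not_not.mpr h5)]
        exact mul_nonneg hp'.le (ind_nonneg _)
    · have h6 : cond (st V T g X J) (kE V T X J) (kE V T X J v) v' = 0 :=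
        le_antisymm (not_lt.mp hp') (hl.nonneg v')
      rw [h6]
      simp
  obtain ⟨D, hD1, hD2, sp, hD3, hD4, hD5⟩ := Pool.QC.qd_exists (k := k) hl (tS T X J) (vS V X J) Xd
    tau y htau hy E be g a0 b0 hC hE hbe hg (LegE V T g X t (eE X (v 0)))
    (fun j : Fin J => T (v j.succ).2.1) (fun s => g s (V (v 0).2.2))
    (fun j : Fin J => g (T (v j.succ).2.1) (V (v j.succ).2.2)) hK0 c1 hq hq1 hq2 hbad
  have hr : IsLaw (rw' X (eE X (v 0))) :=
    rw_law X ((ed_fst hp V T g X).pos he hv0)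
  refine ⟨D, hD1, ?_, sp, hD3, hD4, hD5⟩
  rw [hD2]
  exact absb_leg V T g X ht hr (tw_law hp V T g X hv0) c3

variable {d d0 η : ℝ}

/-- **Most stars have a graph.** -/
theorem star_qd [Fintype τ] [Fintype A] (hl : IsLaw p₀) (Xd : ℕ) {tau : τ → ℤ}
    {y : A → Fin k → ℤ}
    (htau : ∀ t, 0 ≤ tau t ∧ tau t < 2 ^ Xd) (hy : ∀ l j, 0 ≤ y l j ∧ y l j < 2 ^ Xd)
    (E : τ → Fin k → Fin c → ℝ) (be : A → Fin c → ℝ) (a0 : τ → Fin c → ℝ)
    (b0 : A → Fin c → ℝ) {C : ℝ} (hC : 1 ≤ C) (hE : ∀ t u i, |E t u i| ≤ C)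
    (hbe : ∀ l i, |be l i| ≤ C)
    (hg : ∀ t l i, |(g t l i : ℝ) -
      (tau t * be l i - ∑ u, E t u i * y l u + a0 t i + b0 l i)| ≤ C)
    (h1 : CH p₀ n₀ b₀ - CH p₀ n₀ (fun ω => (V ω, (T ω, b₀ ω))) ≤ d)
    (h2 : CH p₀ (fun ω => n₀ ω + g (T ω) (V ω)) (fun ω => (T ω, b₀ ω)) -
      CH p₀ (fun ω => n₀ ω + g (T ω) (V ω)) (fun ω => (V ω, (T ω, b₀ ω))) ≤ d)
    (h3 : CH p₀ T b₀ - CH p₀ T (fun ω => (V ω, (n₀ ω, b₀ ω))) ≤ d0)
    (h4 : (Blk.comp X (stepT hl.nonneg V T g)).h ≤ X.h + η)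
    {t ε K0 q : ℝ} (ht : 0 < t) (hε : 0 < ε) (hK0 : 0 < K0) (hq : 0 < q)
    (hq1 : 4 * (K0 + Real.log 2) ≤ Real.log (1 / (2 * q))) (hq2 : 2 * q ≤ 1) (J : ℕ) :
    Ex (st V T g X J) (fun v => ind (¬ GoodQ X (ε + t) C q Xd tau E (eE X (v 0))
      (fun j : Fin J => T (v j.succ).2.1))) ≤
      (3 * (d + (J + 1) * (2 * d0 + d)) + (Xd * Real.log 2 - CH p₀ (fun ω => tau (T ω)) b₀) +
        (k * Xd * Real.log 2 - CH p₀ (fun ω => y (V ω)) b₀)) / K0 +
      2 * ((J + 1) * ((X.dbl.h + X.dbl.t + (η + 2 * d) - X.h) / t)) +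
      (X.dbl.h + X.dbl.t - X.h) / ε := by
  classical
  have hp := hl.nonneg
  have h0 := st_nn hp V T g X J
  have he := ed_nn hp V T g X
  obtain ⟨P, hP⟩ : ∃ P : (Fin (J + 1) → X.Ω × (Ω₀ × Ω₀)) → ℝ, P = fun v =>
      Ex (cond (st V T g X J) (kE V T X J) (kE V T X J v))
      (fun v => ind (badS V T g X t J v)) := ⟨_, rfl⟩
  have a1 : Ex (st V T g X J) (fun v => ind (¬ GoodQ X (ε + t) C q Xd tau E (eE X (v 0))
      (fun j : Fin J => T (v j.succ).2.1))) ≤
      Ex (st V T g X J) (fun v => kk V T g X k Xd tau y J (kE V T X J v) / K0 + 2 * P v +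
        D1 X (eE X (v 0)) / ε) := by
    refine Ex_mono h0 fun v hv => ?_
    have hv0 := (st_pos hp V T g X hv 0).1
    have hr : IsLaw (rw' X (eE X (v 0))) := rw_law X ((ed_fst hp V T g X).pos he hv0)
    have b1 := kk_nn hp V T g X k Xd htau hy J hv
    have b2 : 0 ≤ D1 X (eE X (v 0)) := dif_nn hr
    have b3 : 0 ≤ P v := by
      rw [hP]
      exact Ex_nonneg (cond_nonneg h0 _ _) fun _ _ => ind_nonneg _
    have b4 : ind (¬ GoodQ X (ε + t) C q Xd tau E (eE X (v 0))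
        (fun j : Fin J => T (v j.succ).2.1)) ≤
        ind ((K0 < kk V T g X k Xd tau y J (kE V T X J v) ∨ 1 / 2 < P v) ∨
          ε < D1 X (eE X (v 0))) := by
      refine ind_mono fun h => ?_
      by_contra hcon
      push Not at hcon
      obtain ⟨⟨c1, c2⟩, c3⟩ := hcon
      rw [hP] at c2
      exact h (star_one hp V T g X Xd htau hy E be a0 b0 hC hE hbe hg ht.le hK0.le hq hq1 hq2 J hv
        c1 c2 c3)
    have b5 := ind_or (P := K0 < kk V T g X k Xd tau y J (kE V T X J v) ∨ 1 / 2 < P v)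
      (Q := ε < D1 X (eE X (v 0)))
    have b6 := ind_or (P := K0 < kk V T g X k Xd tau y J (kE V T X J v)) (Q := 1 / 2 < P v)
    have b7 := ind_le_div hK0 b1
    have b8 := ind_le_div (a := 1 / 2) (by norm_num) b3
    have b9 := ind_le_div hε b2
    have b10 : P v / (1 / 2) = 2 * P v := by ring
    linarith
  refine a1.trans ?_
  rw [Ex_add, Ex_add, Ex_smul]
  have a2 : Ex (st V T g X J) (fun v => kk V T g X k Xd tau y J (kE V T X J v) / K0) ≤
      (3 * (d + (J + 1) * (2 * d0 + d)) + (Xd * Real.log 2 - CH p₀ (fun ω => tau (T ω)) b₀) +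
        (k * Xd * Real.log 2 - CH p₀ (fun ω => y (V ω)) b₀)) / K0 := by
    have e1 : Ex (st V T g X J) (fun v => kk V T g X k Xd tau y J (kE V T X J v) / K0) =
        (1 / K0) * Ex (st V T g X J) (fun v => kk V T g X k Xd tau y J (kE V T X J v)) := by
      rw [← Ex_smul]
      congr 1
      funext v
      ring
    have e2 := kk_avg hp V T g X hl.sum_one k Xd (tau := tau) (y := y) h1 h2 h3 J
    rw [e1, one_div, inv_mul_eq_div]
    exact div_le_div_of_nonneg_right e2 hK0.le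
  have a3 : Ex (st V T g X J) P ≤
      (J + 1) * ((X.dbl.h + X.dbl.t + (η + 2 * d) - X.h) / t) := by
    rw [hP, Ex_cond h0 (kE V T X J) (fun v => ind (badS V T g X t J v))]
    refine (star_bad hp V T g X t J).trans ?_
    refine mul_le_mul_of_nonneg_left ?_ (by positivity)
    rw [le_div_iff₀ ht, mul_comm]
    exact (hop_bad hp V T g X t).trans (D2_avg hp V T g X h1 h2 h4)
  have a4 : Ex (st V T g X J) (fun v => D1 X (eE X (v 0)) / ε) ≤
      (X.dbl.h + X.dbl.t - X.h) / ε := by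
    have e1 : Ex (st V T g X J) (fun v => D1 X (eE X (v 0)) / ε) =
        (1 / ε) * Ex (st V T g X J) (fun v => D1 X (eE X (v 0))) := by
      rw [← Ex_smul]
      congr 1
      funext v
      ring
    have e2 : Ex (st V T g X J) (fun v => D1 X (eE X (v 0))) = Ex X.p (fun ω => D1 X (wE X ω)) := by
      have b1 := Ex_push (Pool.SLO.tup_marg he (lE V X) J 0) (fun w => D1 X (eE X w))
      have b2 := Ex_push (ed_fst hp V T g X) (fun ω => D1 X (wE X ω))
      exact b1.trans b2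
    rw [e1, e2, one_div, inv_mul_eq_div]
    exact div_le_div_of_nonneg_right (D1_avg X) hε.le
  have a5 : (fun v => P v) = P := rfl
  linarith

end

end Pool.RC21
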