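import Pool.Agent.H64.QUAD.Full
import Pool.Agent.H74.FEK.SelG

/-!
# COMB from fullness (row 366)

`comb_of_full`: fullness in the boxes of candidates of level 0 gives the functional of `CombStmt`.
Also: the candidates of a level are finitely many, bounded, and decrease with the level.
-/

set_option autoImplicit false

namespace Pool.QC

open Finset Real
open Matrix
open Pool.Agent.H49.Ent Pool.Agent.H32.Dense Pool.STK Pool.KS6 Pool.RC21

variable {c k : ℕ}

/-! ### Candidates -/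

/-- The defect of a candidate as a function of the labels and the numerator. -/
noncomputable def dfc {α : Type} (X m : ℕ) (w : Bool) (f : α → Fin c → ℝ) (a a' : Fin 2 → α)
    (v : ℤ) : Fin c → ℝ :=
  if w then inc f a - (2 : ℝ) ^ m • inc f a' else inc f a' - ((v : ℝ) / 2 ^ X) • inc f a

theorem pair_dfc {α : Type} {d X m l : ℕ} {w : Bool} {x : α → Fin d → ℤ} {u : Fin d}
    {f : α → Fin c → ℝ} {a a' : Fin 2 → α} {δ : Fin c → ℝ} (h : PairC X m l w x u f a a' δ) :
    ∃ v : ℤ, |v| ≤ 2 ^ X ∧ δ = dfc X m w f a a' v := by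
  obtain ⟨-, -, h | h⟩ := h
  · obtain ⟨h1, -, h2⟩ := h
    refine ⟨0, by simp, ?_⟩
    unfold dfc
    rw [if_pos h1, h2]
  · obtain ⟨h1, v, h2, -, h3⟩ := h
    refine ⟨v, h2, ?_⟩
    unfold dfc
    rw [if_neg (by rw [h1]; simp), h3]

/-- The candidates are finitely many. -/
theorem cand_fin (D : QD c k) (X m : ℕ) (q1 : ℝ) (l : ℕ) (w : Bool) :
    {δ | D.Cand X m q1 l w δ}.Finite := by
  have h1 : (Set.range fun z : Fin k × ((Fin 2 → D.TT) × (Fin 2 → D.TT)) ×
      Set.Icc (-(2 : ℤ) ^ X) (2 ^ X) =>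
      dfc X m w (fun t => D.E t z.1) z.2.1.1 z.2.1.2 z.2.2).Finite := Set.finite_range _
  have h2 : (Set.range fun z : ((Fin 2 → D.VV) × (Fin 2 → D.VV)) ×
      Set.Icc (-(2 : ℤ) ^ X) (2 ^ X) => dfc X m w D.be z.1.1 z.1.2 z.2).Finite :=
    Set.finite_range _
  refine (h1.union h2).subset ?_
  rintro δ ⟨u, h | h⟩
  · obtain ⟨a, a', -, h⟩ := h
    obtain ⟨v, hv, rfl⟩ := pair_dfc h
    exact Or.inl ⟨⟨u, (a, a'), ⟨v, abs_le.1 hv⟩⟩, rfl⟩
  · obtain ⟨a, a', -, h⟩ := h
    obtain ⟨v, hv, rfl⟩ := pair_dfc h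
    exact Or.inr ⟨⟨(a, a'), ⟨v, abs_le.1 hv⟩⟩, rfl⟩

theorem dfc_le {α : Type} {X m : ℕ} {w : Bool} {f : α → Fin c → ℝ} {C : ℝ}
    (hf : ∀ t i, |f t i| ≤ C) (hC : 0 ≤ C) (a a' : Fin 2 → α) {v : ℤ} (hv : |v| ≤ 2 ^ X)
    (i : Fin c) : |dfc X m w f a a' v i| ≤ 4 * C * 2 ^ m := by
  have hm : (1 : ℝ) ≤ 2 ^ m := one_le_pow₀ (by norm_num)
  have hi : ∀ a : Fin 2 → α, |inc f a i| ≤ 2 * C := by
    intro a
    unfold inc
    rw [Pi.sub_apply]
    have := abs_sub (f (a 0) i) (f (a 1) i)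
    linarith [hf (a 0) i, hf (a 1) i]
  unfold dfc
  cases w
  · simp only [Bool.false_eq_true, if_false, Pi.sub_apply, Pi.smul_apply, smul_eq_mul]
    have h1 : |(v : ℝ) / 2 ^ X| ≤ 1 := by
      rw [abs_div, abs_of_pos (by positivity : (0 : ℝ) < 2 ^ X), div_le_one (by positivity)]
      exact_mod_cast hv
    have h2 : |(v : ℝ) / 2 ^ X * inc f a i| ≤ 1 * (2 * C) := by
      rw [abs_mul]
      exact mul_le_mul h1 (hi a) (abs_nonneg _) zero_le_one
    have h3 := abs_sub (inc f a' i) ((v : ℝ) / 2 ^ X * inc f a i)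
    have h4 := hi a'
    nlinarith
  · simp only [if_true, Pi.sub_apply, Pi.smul_apply, smul_eq_mul]
    have h2 : |(2 : ℝ) ^ m * inc f a' i| ≤ 2 ^ m * (2 * C) := by
      rw [abs_mul, abs_of_pos (by positivity : (0 : ℝ) < 2 ^ m)]
      exact mul_le_mul_of_nonneg_left (hi a') (by positivity)
    have h3 := abs_sub (inc f a i) ((2 : ℝ) ^ m * inc f a' i)
    have h4 := hi a
    nlinarith

/-- The candidates are bounded. -/
theorem cand_le {D : QD c k} {X : ℕ} {C q : ℝ} (h : D.Ok X C q) (hC : 0 ≤ C) {m : ℕ} {q1 : ℝ}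
    {l : ℕ} {w : Bool} {δ : Fin c → ℝ} (hδ : D.Cand X m q1 l w δ) (i : Fin c) :
    |δ i| ≤ 4 * C * 2 ^ m := by
  obtain ⟨u, hh | hh⟩ := hδ
  · obtain ⟨a, a', -, hh⟩ := hh
    obtain ⟨v, hv, rfl⟩ := pair_dfc hh
    exact dfc_le (fun t i => h.E_b t u i) hC a a' hv i
  · obtain ⟨a, a', -, hh⟩ := hh
    obtain ⟨v, hv, rfl⟩ := pair_dfc hh
    exact dfc_le h.be_b hC a a' hv i

theorem pair_mono {α : Type} {d X m l l' : ℕ} {w : Bool} {x : α → Fin d → ℤ} {u : Fin d}
    {f : α → Fin c → ℝ} {a a' : Fin 2 → α} {δ : Fin c → ℝ} (hl : l' ≤ l)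
    (h : PairC X m l w x u f a a' δ) : PairC X m l' w x u f a a' δ := by
  obtain ⟨h1, h2, h3⟩ := h
  refine ⟨h1, le_trans ?_ h2, h3⟩
  exact mul_le_mul_of_nonneg_left (pow_le_pow_right₀ (by norm_num) hl) (abs_nonneg _)

/-- The candidates decrease with the level. -/
theorem cand_mono {D : QD c k} {X m : ℕ} {q1 : ℝ} {l l' : ℕ} (hl : l' ≤ l) {w : Bool}
    {δ : Fin c → ℝ} (h : D.Cand X m q1 l w δ) : D.Cand X m q1 l' w δ := by
  obtain ⟨u, hh | hh⟩ := h
  · obtain ⟨a, a', h1, h2⟩ := hh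
    exact ⟨u, Or.inl ⟨a, a', h1, pair_mono hl h2⟩⟩
  · obtain ⟨a, a', h1, h2⟩ := hh
    exact ⟨u, Or.inr ⟨a, a', h1, pair_mono hl h2⟩⟩

/-! ### Fullness -/

/-- The variable in units `2 ^ X`. -/
noncomputable def xx {Ω : Type} (R : Ω → Fin c → ℤ) (X : ℕ) (ω : Ω) (i : Fin c) : ℝ :=
  R ω i / 2 ^ X

/-- A family of `c` elements of a finite set of vectors with the largest determinant. -/
theorem exists_basis {I : Type} [Finite I] (F : I → Fin c → ℝ) (f0 : Fin c → I)
    (h0 : (mat fun b => F (f0 b)).det ≠ 0) :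
    ∃ f : Fin c → I, (mat fun b => F (f b)).det ≠ 0 ∧
      ∀ v b, |((mat fun b => F (f b))⁻¹ *ᵥ F v) b| ≤ 1 := by
  classical
  have : Nonempty (Fin c → I) := ⟨f0⟩
  obtain ⟨f, hf⟩ := Finite.exists_max (fun f : Fin c → I => |(mat fun b => F (f b)).det|)
  have hd : (mat fun b => F (f b)).det ≠ 0 := by
    have := hf f0
    have h1 := abs_pos.2 h0
    exact abs_pos.1 (h1.trans_le this)
  refine ⟨f, hd, fun v b => ?_⟩
  have h1 : ((mat fun b => F (f b))⁻¹ *ᵥ F v) b =
      (mat fun b' => F (Function.update f b v b')).det / (mat fun b => F (f b)).det := by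
    rw [Matrix.inv_def, Matrix.smul_mulVec, ← Matrix.cramer_eq_adjugate_mulVec, Pi.smul_apply,
      Matrix.cramer_apply, Ring.inverse_eq_inv', smul_eq_mul, div_eq_inv_mul]
    congr 2
    ext i j
    rw [Matrix.updateCol_apply]
    simp only [mat, Matrix.of_apply, Function.update_apply]
    by_cases e : j = b
    · rw [if_pos e, if_pos e]
    · rw [if_neg e, if_neg e]
  rw [h1, abs_div, div_le_one (abs_pos.2 hd)]
  exact hf _

theorem num_aux {c0 x1 X L η g1 K5 Cs Lg : ℝ} (h1 : Cs + g1 * K5 + Lg ≤ (c0 - x1) / 4 * X)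
    (h2 : η * X + g1 * (η * X * L) ≤ (c0 - x1) / 4 * X)
    (h3 : (c0 - x1) / 2 * X ≤ (c0 - x1) * X * L) :
    (1 - c0) * X * L + η * X + (g1 * (η * X * L) + g1 * K5) + Cs + Lg - X * L ≤ -(x1 * X) * L := by
  linarith

/-- `FULL` gives `COMB`. -/
theorem comb_of_full (h : FullStmt c k) : CombStmt c k := by
  classical
  intro n c0 x1 C hx hxc hC
  obtain ⟨g, rfl⟩ : ∃ g, c = g + 1 := by
    rcases c with _ | g
    · exact n.elim0
    · exact ⟨g, rfl⟩
  set η : ℝ := (c0 - x1) / (4 * (g + 2)) with hη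
  have hη0 : 0 < η := by
    rw [hη]
    apply div_pos (by linarith) (by positivity)
  obtain ⟨m, ka, ε0, C1, X0, hka, hε, hC1, H⟩ := h C η hC hη0
  -- the final constant
  set Cf : ℝ := Pool.FEK74.Csg g ((g : ℝ) + 1) + ((g + 1 : ℕ) : ℝ) * Real.log (2 * (1 + 1) + 1) +
    Real.log (g + 1) with hCf
  have hl2 : (0.6931471803 : ℝ) < Real.log 2 := Real.log_two_gt_d9
  have hl3 : Real.log 2 < (0.6931471808 : ℝ) := Real.log_two_lt_d9
  obtain ⟨X1, hX1⟩ := exists_nat_gt (Cf / ((c0 - x1) / 4))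
  refine ⟨m, ka, ε0, C1, max X0 X1, hka, hε, hC1, ?_⟩
  intro D X hX hD Ω _ p R hp hR hA hnf
  have hr := H D X ((le_max_left _ _).trans hX) hD Ω _ p R hp hA
  have hX' : Cf ≤ (c0 - x1) / 4 * X := by
    have e1 : (X1 : ℝ) ≤ X := by exact_mod_cast (le_max_right _ _).trans hX
    have e2 : Cf / ((c0 - x1) / 4) ≤ X := hX1.le.trans e1
    rw [div_le_iff₀ (by linarith)] at e2
    linarith
  have h2X : (0 : ℝ) < 2 ^ X := by positivity
  obtain ⟨r, hrd⟩ : ∃ r : ℝ, r = ((2 : ℝ) ^ X)⁻¹ := ⟨_, rfl⟩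
  have hr1 : ((2 : ℝ) ^ X)⁻¹ ≤ r := hrd.ge
  have hr0 : 0 < r := (inv_pos.2 h2X).trans_le hr1
  have hr2 : r * 2 ^ X ≤ (2 : ℝ) ^ (η * X) := by
    rw [hrd, inv_mul_cancel₀ h2X.ne']
    exact Real.one_le_rpow (by norm_num) (by positivity)
  set q1 : ℝ := ((2 : ℝ) ^ (-(ka * X))) ^ C1 with hq1
  -- the family
  set S : Set (Fin (g + 1) → ℝ) := {δ | ∃ w, D.Cand X m q1 0 w δ} with hS
  have hSf : S.Finite := by
    have : S = {δ | D.Cand X m q1 0 true δ} ∪ {δ | D.Cand X m q1 0 false δ} := by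
      ext δ
      constructor
      · rintro ⟨w, hw⟩
        cases w
        · exact Or.inr hw
        · exact Or.inl hw
      · rintro (hw | hw)
        · exact ⟨_, hw⟩
        · exact ⟨_, hw⟩
    rw [this]
    exact (cand_fin _ _ _ _ _ _).union (cand_fin _ _ _ _ _ _)
  have : Finite S := hSf
  let F : S ⊕ Fin (g + 1) → Fin (g + 1) → ℝ := fun z => match z with
    | .inl δ => δ.1
    | .inr i => Pi.single i r
  have hax : (mat fun b => F (Sum.inr b)) = Matrix.diagonal fun _ => r := by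
    ext i j
    simp only [mat, Matrix.of_apply, F, Matrix.diagonal_apply, Pi.single_apply]
  obtain ⟨f, hfd, hf⟩ := exists_basis F (fun b => Sum.inr b) (by
    rw [hax, Matrix.det_diagonal]
    exact Finset.prod_ne_zero_iff.2 fun _ _ => hr0.ne')
  set A := mat fun b => F (f b) with hAd
  -- inclusions
  have hinv : ∀ i j, |A⁻¹ i j| * r ≤ 1 := by
    intro i j
    have e := hf (Sum.inr j) i
    have e1 : F (Sum.inr j) = Pi.single j r := rfl
    rw [e1, Matrix.mulVec_single] at e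
    simp only [Pi.smul_apply, MulOpposite.smul_eq_mul_unop, MulOpposite.unop_op,
      Matrix.col_apply] at e
    rwa [abs_mul, abs_of_pos hr0] at e
  have hfull := hr (fun b => F (f b)) (by
    intro b
    rcases hb : f b with δ | i
    · left
      exact δ.2
    · exact Or.inr ⟨i, by rw [← hrd]⟩) hfd (by
    intro i j
    have e := hinv i j
    rw [hrd, ← div_eq_mul_inv, div_le_one h2X] at e
    exact e)
  set t : Fin (g + 1) → ℝ := fun _ => ((2 : ℝ) ^ X)⁻¹ with ht
  have ht0 : ∀ i, 0 < t i := fun i => inv_pos.2 h2X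
  have hInc : Pool.FAD.Inc ((g : ℝ) + 1) (Matrix.diagonal t) A := by
    intro i
    calc ∑ j, |(A⁻¹ * Matrix.diagonal t) i j| ≤ ∑ _j : Fin (g + 1), (1 : ℝ) := by
          refine Finset.sum_le_sum fun j _ => ?_
          rw [Matrix.mul_diagonal, abs_mul, abs_of_pos (ht0 j)]
          exact (mul_le_mul_of_nonneg_left hr1 (abs_nonneg _)).trans (hinv i j)
      _ = _ := by simp
  have hdT : (Matrix.diagonal t).det ≠ 0 := Pool.FAD.det_diag ht0
  obtain ⟨mm, hm1, -, hm3, hm4⟩ := Pool.FEK74.sel_thm2 hp.nonneg hp.sum_one n t (fun _ => r) ht0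
    (fun _ => hr0) (xx R X) (fun _ => ()) A hfd (c := (g : ℝ) + 1) (by positivity) hInc (by
      intro i
      nlinarith [ht0 i, (Nat.cast_nonneg g : (0 : ℝ) ≤ g)])
  -- the entropy of the coordinate
  have hfl : ∀ ω i, ⌊xx R X ω i / t i⌋ = R ω i := by
    intro ω i
    have : xx R X ω i / t i = (R ω i : ℝ) := by
      simp only [xx, ht]
      field_simp
    rw [this, Int.floor_intCast]
  have hCH : CH p (fun ω => ⌊xx R X ω n / t n⌋)
      (fun ω => ((fun l : Fin g => ⌊xx R X ω (n.succAbove l) / t (n.succAbove l)⌋), ())) ≤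
      (1 - c0) * X * Real.log 2 := by
    refine le_trans (le_of_eq ?_) hnf
    simp only [hfl]
    refine le_antisymm ?_ ?_
    · refine CH_mono_cond hp.nonneg fun ω ω' _ _ e => ?_
      simp only [Prod.mk.injEq, and_true] at e
      funext i
      obtain ⟨l, hl⟩ := Fin.exists_succAbove_eq i.2
      have := congrFun e l
      rw [hl] at this
      exact this
    · refine CH_mono_cond hp.nonneg fun ω ω' _ _ e => ?_
      simp only [Prod.mk.injEq, and_true]
      funext l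
      exact congrFun e ⟨n.succAbove l, Fin.succAbove_ne n l⟩
  have hDF1 := Pool.CLO.DF_le_Ph hp (xx R X) (Matrix.diagonal t) A
  have hT1 : (((2 : ℝ) ^ X)⁻¹ • (1 : Matrix (Fin (g + 1)) (Fin (g + 1)) ℝ)) =
      Matrix.diagonal t := by
    rw [ht, ← Matrix.diagonal_one, ← Matrix.diagonal_smul]
    congr 1
    funext i
    simp
  rw [hT1] at hfull
  change Pool.CLO.Ph p (xx R X) A ≤ Pool.CLO.Ph p (xx R X) (Matrix.diagonal t) + η * X at hfull
  have hDF2 : Pool.FAD.DF p (fun _ => Matrix.diagonal t) (fun _ => Matrix.diagonal fun _ => r)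
      (xx R X) (fun _ => ()) ≤ ((g + 1 : ℕ) : ℝ) * (η * X * Real.log 2) +
        ((g + 1 : ℕ) : ℝ) * Real.log (2 * (1 + 1) + 1) := by
    have e1 := Pool.CLO.DF_le_Ph hp (xx R X) (Matrix.diagonal t) (Matrix.diagonal fun _ => r)
    have e2 := Pool.CLO.Ph_up hp (xx R X) (A := Matrix.diagonal t)
      (B := Matrix.diagonal fun _ => r) hdT (a := 1)
      (Pool.FEK74.inc_diag ht0 (fun _ => hr0) fun i => by rw [one_mul]; exact hr1)
    have e3 : Pool.FAD.lv (Matrix.diagonal fun _ : Fin (g + 1) => r) -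
        Pool.FAD.lv (Matrix.diagonal t) = ((g + 1 : ℕ) : ℝ) * Real.log (r * 2 ^ X) := by
      unfold Pool.FAD.lv
      rw [Matrix.det_diagonal, Matrix.det_diagonal, Finset.prod_const, Finset.prod_const,
        Finset.card_univ, Fintype.card_fin, abs_of_pos (by positivity), abs_of_pos (by positivity),
        Real.log_pow, Real.log_pow, Real.log_mul hr0.ne' h2X.ne', Real.log_inv]
      ring
    have e4 : Real.log (r * 2 ^ X) ≤ η * X * Real.log 2 := by
      have := Real.log_le_log (by positivity) hr2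
      rwa [Real.log_rpow (by norm_num)] at this
    have e5 := mul_le_mul_of_nonneg_left e4 (by positivity : (0 : ℝ) ≤ ((g + 1 : ℕ) : ℝ))
    linarith
  -- the bound
  set B : ℝ := t n * Real.exp (CH p (fun ω => ⌊xx R X ω n / t n⌋)
      (fun ω => ((fun l : Fin g => ⌊xx R X ω (n.succAbove l) / t (n.succAbove l)⌋), ())) +
    Pool.FAD.DF p (fun _ => Matrix.diagonal t) (fun _ => A) (xx R X) (fun _ => ()) +
    Pool.FAD.DF p (fun _ => Matrix.diagonal t) (fun _ => Matrix.diagonal fun _ => r)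
      (xx R X) (fun _ => ()) + Pool.FEK74.Csg g ((g : ℝ) + 1)) with hB
  have hBle : ((g : ℝ) + 1) * B ≤ (2 : ℝ) ^ (-(x1 * X)) := by
    have hg1 : (0 : ℝ) < (g : ℝ) + 1 := by positivity
    have hBp : 0 < B := mul_pos (ht0 n) (Real.exp_pos _)
    rw [← Real.log_le_log_iff (by positivity) (by positivity), Real.log_rpow (by norm_num),
      Real.log_mul hg1.ne' hBp.ne', hB, Real.log_mul (ht0 n).ne' (Real.exp_pos _).ne',
      Real.log_exp]
    have e1 : Real.log (t n) = -(X * Real.log 2) := by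
      rw [ht]
      simp only
      rw [Real.log_inv, Real.log_pow]
    rw [e1]
    have e2 : (1 - c0) * X * Real.log 2 + η * X + (((g + 1 : ℕ) : ℝ) * (η * X * Real.log 2) +
        ((g + 1 : ℕ) : ℝ) * Real.log (2 * (1 + 1) + 1)) + Pool.FEK74.Csg g ((g : ℝ) + 1) +
        Real.log (g + 1) - X * Real.log 2 ≤ -(x1 * X) * Real.log 2 := by
      have hXn : (0 : ℝ) ≤ X := Nat.cast_nonneg X
      have e3 : η * (g + 2) = (c0 - x1) / 4 := by
        rw [hη]
        field_simp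
      have e4 : η * X + ((g + 1 : ℕ) : ℝ) * (η * X * Real.log 2) ≤ (c0 - x1) / 4 * X := by
        have e5 : ((g + 1 : ℕ) : ℝ) * (η * X * Real.log 2) ≤ ((g + 1 : ℕ) : ℝ) * (η * X * 1) := by
          refine mul_le_mul_of_nonneg_left ?_ (by positivity)
          exact mul_le_mul_of_nonneg_left (by linarith) (by positivity)
        have e6 : η * X + ((g + 1 : ℕ) : ℝ) * (η * X * 1) = η * (g + 2) * X := by
          push_cast
          ring
        rw [e3] at e6
        linarith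
      have e7 : (c0 - x1) / 2 * X ≤ (c0 - x1) * X * Real.log 2 := by
        have : 0 ≤ (c0 - x1) * X := mul_nonneg (by linarith) hXn
        nlinarith
      rw [hCf] at hX'
      exact num_aux hX' e4 e7
    linarith
  have hBpos : 0 < B := mul_pos (ht0 n) (Real.exp_pos _)
  have hB1 : B ≤ (2 : ℝ) ^ (-(x1 * X)) := by
    refine le_trans ?_ hBle
    have : (1 : ℝ) ≤ (g : ℝ) + 1 := by
      have : (0 : ℝ) ≤ (g : ℝ) := Nat.cast_nonneg g
      linarith
    nlinarith
  have hpow : (2 : ℝ) ^ (-(x1 * X)) ≤ 1 := by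
    refine Real.rpow_le_one_of_one_le_of_nonpos (by norm_num) ?_
    have : 0 ≤ x1 * X := by positivity
    linarith
  refine ⟨mm, hm1, ?_, ?_⟩
  · intro i
    by_cases hi : i = n
    · rw [hi, hm1, abs_one]
      exact one_le_pow₀ (by norm_num)
    · have e1 := hm3 i hi
      have e2 : r * |mm i| ≤ 1 := e1.trans (hB1.trans hpow)
      have e3 : ((2 : ℝ) ^ X)⁻¹ * |mm i| ≤ 1 :=
        (mul_le_mul_of_nonneg_right hr1 (abs_nonneg _)).trans e2
      rwa [inv_mul_le_iff₀ h2X, mul_one] at e3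
  · intro w δ hδ
    have hδS : δ ∈ S := ⟨w, hδ⟩
    have e1 := hf (Sum.inl ⟨δ, hδS⟩)
    have e2 : F (Sum.inl ⟨δ, hδS⟩) = δ := rfl
    rw [e2] at e1
    have e3 : ∑ i, mm i * δ i = ∑ b, (mm ⬝ᵥ fun i => A i b) * (A⁻¹ *ᵥ δ) b := by
      have e4 : A *ᵥ (A⁻¹ *ᵥ δ) = δ := by
        rw [Matrix.mulVec_mulVec, Matrix.mul_nonsing_inv _ (isUnit_iff_ne_zero.2 hfd),
          Matrix.one_mulVec]
      calc ∑ i, mm i * δ i = ∑ i, mm i * (A *ᵥ (A⁻¹ *ᵥ δ)) i := by rw [e4]
        _ = ∑ i, ∑ b, mm i * (A i b * (A⁻¹ *ᵥ δ) b) := by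
            refine Finset.sum_congr rfl fun i _ => ?_
            rw [Matrix.mulVec, dotProduct, Finset.mul_sum]
        _ = ∑ b, ∑ i, mm i * (A i b * (A⁻¹ *ᵥ δ) b) := Finset.sum_comm
        _ = _ := by
            refine Finset.sum_congr rfl fun b _ => ?_
            rw [dotProduct, Finset.sum_mul]
            refine Finset.sum_congr rfl fun i _ => ?_
            ring
    rw [e3]
    refine (Finset.abs_sum_le_sum_abs _ _).trans (le_trans ?_ hBle)
    calc ∑ b, |(mm ⬝ᵥ fun i => A i b) * (A⁻¹ *ᵥ δ) b| ≤ ∑ _b : Fin (g + 1), B := by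
          refine Finset.sum_le_sum fun b _ => ?_
          rw [abs_mul]
          have := mul_le_mul (hm4 b) (e1 b) (abs_nonneg _) hBpos.le
          rwa [mul_one] at this
      _ = ((g : ℝ) + 1) * B := by
          rw [Finset.sum_const, Finset.card_univ, Fintype.card_fin, nsmul_eq_mul]
          push_cast
          ring

end Pool.QC
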