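import Pool.Agent.H21.QW.Comb
import Pool.Agent.H30.TRIM.Trim

/-!
# The graph at a fixed value

`S` (a time) and `V` (a label) are random with small mutual information, and `tau (S)`, `y (V)` are
almost uniform. Most pairs are adjacent, and most `V` are adjacent to finitely many special times.
Then there is a graph with large degrees which contains the special times.
-/

set_option autoImplicit false

namespace Pool.QC

open Finset Real
open Pool.Agent.H49.Ent Pool.Agent.H32.Dense Pool.STK Pool.KS6 Pool.RC21 Pool.TRIM30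

variable {c k : ℕ}

section mk

variable {Θ Λ : Type} (tau : Θ → ℤ) (y : Λ → Fin k → ℤ)
  (E : Θ → Fin k → Fin c → ℝ) (be : Λ → Fin c → ℝ) (g : Θ → Λ → Fin c → ℤ) (a0 : Θ → Fin c → ℝ)
  (b0 : Λ → Fin c → ℝ) (S : Set (Fin c → ℤ)) {J : ℕ} (th : Fin J → Θ) (ref : Θ → Fin c → ℤ)
  (rfs : Fin J → Fin c → ℤ) (mu : Θ → ℝ) (vp : Λ → ℝ) (A : Finset Θ) (B : Finset Λ)

/-- The graph on the trimmed sets, with the special times. -/
noncomputable def mkQ : QD c k where
  TT := {t // t ∈ A} ⊕ Fin J
  VV := {v // v ∈ B}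
  iT := inferInstance
  iV := inferInstance
  mu := Sum.elim (fun t => mu t) (fun _ => 0)
  vp := fun v => vp v
  tau := Sum.elim (fun t => tau t) (fun j => tau (th j))
  y := fun v => y v
  E := Sum.elim (fun t => E t) (fun j => E (th j))
  be := fun v => be v
  g := Sum.elim (fun t v => g t v) (fun j v => g (th j) v)
  a0 := Sum.elim (fun t => a0 t) (fun j => a0 (th j))
  b0 := fun v => b0 v
  ref := Sum.elim (fun t => ref t) rfs
  adj := Sum.elim (fun t v => g t v - ref t ∈ S) (fun j v => g (th j) v - rfs j ∈ S)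
  A := S

end mk

/-- Adjacency for the trimming. -/
def Gr {Θ Λ : Type} (g : Θ → Λ → Fin c → ℤ) (S : Set (Fin c → ℤ)) {J : ℕ} (th : Fin J → Θ)
    (ref : Θ → Fin c → ℤ) (rfs : Fin J → Fin c → ℤ) (t : Θ) (v : Λ) : Prop :=
  g t v - ref t ∈ S ∧ ∀ j, g (th j) v - rfs j ∈ S

theorem sum_sub_le {α : Type} [Fintype α] (A : Finset α) {f : α → ℝ} (hf : ∀ x, 0 ≤ f x) :
    ∑ x : {x // x ∈ A}, f x ≤ ∑ x, f x := by
  classical
  rw [Finset.sum_coe_sort A f]
  exact Finset.sum_le_sum_of_subset_of_nonneg (Finset.subset_univ _) fun x _ _ => hf x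

open Classical in
/-- **The graph exists.** -/
theorem qd_exists {Ω Θ Λ : Type} [Fintype Ω] [Fintype Θ] [Fintype Λ] {p : Ω → ℝ} (hp : IsLaw p)
    (s : Ω → Θ) (v : Ω → Λ) (X : ℕ) (tau : Θ → ℤ) (y : Λ → Fin k → ℤ)
    (htau : ∀ t, 0 ≤ tau t ∧ tau t < 2 ^ X) (hy : ∀ l j, 0 ≤ y l j ∧ y l j < 2 ^ X)
    (E : Θ → Fin k → Fin c → ℝ) (be : Λ → Fin c → ℝ) (g : Θ → Λ → Fin c → ℤ)
    (a0 : Θ → Fin c → ℝ) (b0 : Λ → Fin c → ℝ) {C : ℝ} (hC : 1 ≤ C) (hE : ∀ t u i, |E t u i| ≤ C)
    (hbe : ∀ l i, |be l i| ≤ C)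
    (hg : ∀ t l i, |(g t l i : ℝ) -
      (tau t * be l i - ∑ u, E t u i * y l u + a0 t i + b0 l i)| ≤ C)
    (S : Set (Fin c → ℤ)) {J : ℕ} (th : Fin J → Θ) (ref : Θ → Fin c → ℤ) (rfs : Fin J → Fin c → ℤ)
    {k₀ q : ℝ} (hk0 : 0 ≤ k₀) (hk : (H p s + H p v - H p (fun ω => (s ω, v ω))) +
      (X * Real.log 2 - H p (fun ω => tau (s ω))) +
      (k * X * Real.log 2 - H p (fun ω => y (v ω))) ≤ k₀) (hq : 0 < q)
    (hq1 : 4 * (k₀ + Real.log 2) ≤ Real.log (1 / (2 * q))) (hq2 : 2 * q ≤ 1)
    (hbad : (∑ ω, if ¬ Gr g S th ref rfs (s ω) (v ω) then p ω else 0) ≤ 1 / 2) :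
    ∃ D : QD c k, D.Ok X C q ∧ D.A = S ∧ ∃ sp : Fin J → D.TT,
      (∀ j, D.tau (sp j) = tau (th j) ∧ D.E (sp j) = E (th j)) ∧
      (∀ j l, D.adj (sp j) l) ∧ q ≤ D.cnV sp := by
  set F₁ : Finset ℤ := Finset.Ico 0 (2 ^ X) with hF₁
  set F₂ : Finset (Fin k → ℤ) := Fintype.piFinset fun _ => Finset.Ico 0 (2 ^ X) with hF₂
  have hca : (0 : ℝ) < 1 / 2 ^ X := by positivity
  have hcb : (0 : ℝ) < 1 / 2 ^ (k * X) := by positivity
  have hc₁ : (F₁.card : ℝ) * (1 / 2 ^ X) ≤ 1 := by
    rw [hF₁, Int.card_Ico, sub_zero]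
    have : ((((2 : ℤ) ^ X).toNat : ℕ) : ℝ) = 2 ^ X := by
      rw [show ((2 : ℤ) ^ X).toNat = 2 ^ X from by
        rw [show ((2 : ℤ) ^ X) = ((2 ^ X : ℕ) : ℤ) by simp, Int.toNat_natCast]]
      push_cast
      rfl
    rw [this]
    exact le_of_eq (by field_simp)
  have hc₂ : (F₂.card : ℝ) * (1 / 2 ^ (k * X)) ≤ 1 := by
    have h1 : F₂.card = (2 ^ X) ^ k := by
      rw [hF₂, Fintype.card_piFinset]
      simp only [Int.card_Ico, sub_zero, Finset.prod_const, Finset.card_univ, Fintype.card_fin]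
      congr 1
    rw [h1]
    push_cast
    rw [← pow_mul, Nat.mul_comm X k]
    exact le_of_eq (by field_simp)
  have hl1 : Real.log (1 / (1 / 2 ^ X)) = X * Real.log 2 := by
    rw [one_div_one_div, Real.log_pow]
  have hl2 : Real.log (1 / (1 / 2 ^ (k * X))) = k * X * Real.log 2 := by
    rw [one_div_one_div, Real.log_pow]
    push_cast
    ring
  obtain ⟨A, B, hA, hB, hAB⟩ := trim_law hp.nonneg hp.sum_one s v (Gr g S th ref rfs)
    tau y hca hcb F₁ F₂ (fun t => by
      rw [hF₁, Finset.mem_Ico]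
      exact htau t) (fun l => by
      rw [hF₂, Fintype.mem_piFinset]
      intro j
      rw [Finset.mem_Ico]
      exact hy l j) hc₁ hc₂ (k₀ := k₀) (δ := q) (by rw [hl1, hl2]; exact hk) hq hq2
  set mu : Θ → ℝ := rf p s tau (1 / 2 ^ X) with hmu
  set vp : Λ → ℝ := rf p v y (1 / 2 ^ (k * X)) with hvp
  have mu0 : ∀ t, 0 ≤ mu t := fun t => rf_nonneg hp.nonneg s tau hca.le t
  have vp0 : ∀ l, 0 ≤ vp l := fun l => rf_nonneg hp.nonneg v y hcb.le l
  have mu1 : ∑ t, mu t ≤ 1 := rf_total hp.nonneg s tau hca.le F₁ (fun t => by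
      rw [hF₁, Finset.mem_Ico]
      exact htau t) hc₁
  have vp1 : ∑ t, vp t ≤ 1 := rf_total hp.nonneg v y hcb.le F₂ (fun l => by
      rw [hF₂, Fintype.mem_piFinset]
      intro j
      rw [Finset.mem_Ico]
      exact hy l j) hc₂
  have hl0 : 0 < Real.log 2 := Real.log_pos (by norm_num)
  have hlog : 0 < Real.log (1 / (2 * q)) := by linarith
  -- a good sample
  obtain ⟨ω₀, -, hωA, hωB⟩ : ∃ ω, 0 < p ω ∧ s ω ∈ A ∧ v ω ∈ B := by
    by_contra hcon
    push Not at hcon
    have h1 : (∑ ω, if ¬ (s ω ∈ A ∧ v ω ∈ B) then p ω else 0) = 1 := by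
      rw [← hp.sum_one]
      refine Finset.sum_congr rfl fun ω _ => ?_
      rcases (hp.nonneg ω).eq_or_lt with h0 | h0
      · rw [← h0]
        simp
      · rw [if_pos]
        rintro ⟨h2, h3⟩
        exact hcon ω h0 h2 h3
    rw [h1] at hAB
    have h2 := mul_le_mul_of_nonneg_right hbad hlog.le
    linarith
  have hBadj : ∀ l ∈ B, ∀ j, g (th j) l - rfs j ∈ S := by
    intro l hl j
    have h1 := (hB l hl).2
    have h2 : 0 < dg (fun y x => Gr g S th ref rfs x y) mu A l := lt_of_lt_of_le hq h1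
    unfold dg at h2
    obtain ⟨t, -, ht⟩ := Finset.exists_ne_zero_of_sum_ne_zero h2.ne'
    by_cases h3 : Gr g S th ref rfs t l
    · exact h3.2 j
    · rw [if_neg h3] at ht
      exact absurd rfl ht
  have hvB : q ≤ ∑ l : {l // l ∈ B}, vp l := by
    rw [Finset.sum_coe_sort B vp]
    refine (hA _ hωA).2.trans ?_
    unfold dg
    refine Finset.sum_le_sum fun l _ => ?_
    split_ifs
    · exact le_rfl
    · exact vp0 l
  refine ⟨mkQ tau y E be g a0 b0 S th ref rfs mu vp A B, ?_, rfl, fun j => Sum.inr j,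
    fun j => ⟨rfl, rfl⟩, fun j l => hBadj l.1 l.2 j, ?_⟩
  swap
  · refine hvB.trans (le_of_eq ?_)
    unfold QD.cnV
    refine Finset.sum_congr rfl fun l _ => ?_
    rw [if_pos]
    · rfl
    · exact fun j => hBadj l.1 l.2 j
  · refine ⟨?_, ?_, ?_, ?_, ?_, ?_, ?_, ?_, ?_, ?_, ?_, ?_, ?_, ?_⟩
    · -- mu_nn
      rintro (t | j)
      · exact mu0 t
      · exact le_rfl
    · -- mu_le
      have h1 : ∑ t : {t // t ∈ A} ⊕ Fin J, (Sum.elim (fun t : {t // t ∈ A} => mu t)
          (fun _ => 0) t : ℝ) ≤ 1 := by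
        rw [Fintype.sum_sum_type]
        simp only [Sum.elim_inl, Sum.elim_inr, Finset.sum_const_zero, add_zero]
        exact (sum_sub_le A mu0).trans mu1
      exact h1
    · exact fun l => vp0 l.1
    · exact (sum_sub_le B vp0).trans vp1
    · -- mu_sp
      intro a
      have h1 : ∑ t : {t // t ∈ A} ⊕ Fin J, (if (Sum.elim (fun t : {t // t ∈ A} => tau t)
          (fun j => tau (th j)) t) = a then (Sum.elim (fun t : {t // t ∈ A} => mu t)
          (fun _ => 0) t : ℝ) else 0) ≤ C / 2 ^ X := by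
        rw [Fintype.sum_sum_type]
        have h0 : ∑ j : Fin J, (if (Sum.elim (fun t : {t // t ∈ A} => tau t)
          (fun j => tau (th j)) (Sum.inr j)) = a then (Sum.elim (fun t : {t // t ∈ A} => mu t)
          (fun _ => 0) (Sum.inr j) : ℝ) else 0) = 0 :=
          Finset.sum_eq_zero fun j _ => ite_self 0
        rw [h0, add_zero]
        simp only [Sum.elim_inl]
        refine (sum_sub_le A (f := fun t => if tau t = a then mu t else 0) fun t => ?_).trans ?_
        · split_ifs
          · exact mu0 t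
          · exact le_rfl
        · refine le_trans (le_of_eq ?_) ((rf_fib hp.nonneg s tau hca.le a).trans
            (div_le_div_of_nonneg_right hC (by positivity)))
          refine Finset.sum_congr rfl fun t _ => ?_
          by_cases h : tau t = a <;> simp [h, hmu]
      exact h1
    · -- vp_sp
      intro a
      have h1 : ∑ l : {l // l ∈ B}, (if y l = a then vp l else 0) ≤ C / 2 ^ (k * X) := by
        refine (sum_sub_le B (f := fun l => if y l = a then vp l else 0) fun l => ?_).trans ?_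
        · split_ifs
          · exact vp0 l
          · exact le_rfl
        · refine le_trans (le_of_eq ?_) ((rf_fib hp.nonneg v y hcb.le a).trans
            (div_le_div_of_nonneg_right hC (by positivity)))
          refine Finset.sum_congr rfl fun t _ => ?_
          by_cases h : y t = a <;> simp [h, hvp]
      exact h1
    · rintro (t | j)
      · exact htau t
      · exact htau (th j)
    · exact fun l j => hy l.1 j
    · rintro (t | j) u i
      · exact hE t u i
      · exact hE (th j) u i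
    · exact fun l i => hbe l.1 i
    · -- deg_T
      rintro (t | j)
      · refine (hA t.1 t.2).2.trans ?_
        unfold dg QD.cnV
        rw [← Finset.sum_coe_sort B]
        refine Finset.sum_le_sum fun l _ => ?_
        by_cases h : Gr g S th ref rfs t.1 l.1
        · rw [if_pos h, if_pos]
          · exact le_rfl
          · exact fun _ => h.1
        · rw [if_neg h]
          split_ifs
          · exact vp0 l
          · exact le_rfl
      · refine hvB.trans (le_of_eq ?_)
        unfold QD.cnV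
        refine Finset.sum_congr rfl fun l _ => ?_
        rw [if_pos]
        · rfl
        · exact fun _ => hBadj l.1 l.2 j
    · -- deg_V
      intro l
      refine (hB l.1 l.2).2.trans ?_
      have h1 : dg (fun y x => Gr g S th ref rfs x y) mu A l.1 ≤
          ∑ t : {t // t ∈ A} ⊕ Fin J, (if (Sum.elim (fun t : {t // t ∈ A} =>
            g t l.1 - ref t ∈ S) (fun j => g (th j) l.1 - rfs j ∈ S) t) then
            (Sum.elim (fun t : {t // t ∈ A} => mu t) (fun _ => 0) t : ℝ) else 0) := by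
        rw [Fintype.sum_sum_type]
        have h0 : ∑ j : Fin J, (if (Sum.elim (fun t : {t // t ∈ A} =>
            g t l.1 - ref t ∈ S) (fun j => g (th j) l.1 - rfs j ∈ S) (Sum.inr j)) then
            (Sum.elim (fun t : {t // t ∈ A} => mu t) (fun _ => 0) (Sum.inr j) : ℝ) else 0) = 0 :=
          Finset.sum_eq_zero fun j _ => ite_self 0
        rw [h0, add_zero]
        simp only [Sum.elim_inl]
        unfold dg
        rw [← Finset.sum_coe_sort A]
        refine Finset.sum_le_sum fun t _ => ?_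
        by_cases h : Gr g S th ref rfs t.1 l.1
        · have h1 : g t.1 l.1 - ref t.1 ∈ S := h.1
          exact (if_pos h).le.trans (if_pos h1).ge
        · refine (if_neg h).le.trans ?_
          by_cases h1 : g t.1 l.1 - ref t.1 ∈ S
          · exact (mu0 t.1).trans (if_pos h1).ge
          · exact (if_neg h1).ge
      refine h1.trans (le_of_eq ?_)
      unfold QD.cnT
      refine Finset.sum_congr rfl fun t _ => ?_
      rcases t with t | j
      · by_cases h : g t.1 l.1 - ref t.1 ∈ S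
        · exact Eq.trans (@if_pos _ _ h _ _ _) (Eq.symm (@if_pos _ _ (fun _ => h) _ _ _))
        · exact Eq.trans (@if_neg _ _ h _ _ _) (Eq.symm (@if_neg _ _ (fun h2 => h (h2 ())) _ _ _))
      · by_cases h : g (th j) l.1 - rfs j ∈ S
        · exact Eq.trans (@if_pos _ _ h _ _ _) (Eq.symm (@if_pos _ _ (fun _ => h) _ _ _))
        · exact Eq.trans (@if_neg _ _ h _ _ _) (Eq.symm (@if_neg _ _ (fun h2 => h (h2 ())) _ _ _))
    · -- g_eq
      rintro (t | j) l _ i
      · exact hg t.1 l.1 i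
      · exact hg (th j) l.1 i
    · rintro (t | j) l h
      · exact h
      · exact h

end Pool.QC
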