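import Pool.Agent.H21.QW.Val
import Pool.Agent.H21.QW.Qd

/-!
# The graph for most stars

For most stars of `J + 1` hops the graph of `Qd.lean` exists for the world and the times of the hops
`1, .., J`.
-/

set_option autoImplicit false
set_option linter.unusedSectionVars false
set_option linter.unusedVariables false

namespace Pool.RC21

open Finset
open Pool.Agent.H49.Ent Pool.Agent.H32.Dense Pool.CH30 Pool.STK Pool.KS6

/-! ### Small facts -/

section small

variable {Ω S T : Type} [Fintype Ω] {p : Ω → ℝ}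

theorem toNat_pow (X : ℕ) : ((2 : ℤ) ^ X).toNat = 2 ^ X := by
  rw [show ((2 : ℤ) ^ X) = ((2 ^ X : ℕ) : ℤ) by simp, Int.toNat_natCast]

theorem H_sub (hp : IsLaw p) (X : Ω → S) (Y : Ω → T) :
    H p (fun ω => (X ω, Y ω)) ≤ H p X + H p Y := by
  have h := CH_subadd hp.nonneg X Y (fun _ => ())
  rwa [CH_unit hp.nonneg hp.sum_one, CH_unit hp.nonneg hp.sum_one,
    CH_unit hp.nonneg hp.sum_one] at h

theorem H_int_le (hp : IsLaw p) (X : ℕ) (f : Ω → ℤ) (h : ∀ ω, 0 ≤ f ω ∧ f ω < 2 ^ X) :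
    H p f ≤ X * Real.log 2 := by
  refine (H_le_log_card hp.nonneg hp.sum_one f (Finset.Ico 0 (2 ^ X)) (fun ω _ => by
    rw [Finset.mem_Ico]
    exact h ω)).trans (le_of_eq ?_)
  rw [Int.card_Ico, sub_zero, toNat_pow]
  push_cast
  rw [Real.log_pow]

theorem H_vec_le (hp : IsLaw p) (X k : ℕ) (f : Ω → Fin k → ℤ)
    (h : ∀ ω j, 0 ≤ f ω j ∧ f ω j < 2 ^ X) : H p f ≤ k * X * Real.log 2 := by
  refine (H_le_log_card hp.nonneg hp.sum_one f (Fintype.piFinset fun _ => Finset.Ico 0 (2 ^ X))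
    (fun ω _ => by
      rw [Fintype.mem_piFinset]
      intro j
      rw [Finset.mem_Ico]
      exact h ω j)).trans (le_of_eq ?_)
  rw [Fintype.card_piFinset]
  simp only [Int.card_Ico, sub_zero, Finset.prod_const, Finset.card_univ, Fintype.card_fin]
  rw [toNat_pow]
  push_cast
  rw [Real.log_pow, Real.log_pow]
  ring

/-- Markov, pointwise. -/
theorem ind_le_div {a x : ℝ} (ha : 0 < a) (hx : 0 ≤ x) : ind (a < x) ≤ x / a := by
  unfold ind
  split_ifs with h
  · rw [le_div_iff₀ ha]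
    linarith
  · positivity

theorem ind_or {P Q : Prop} : ind (P ∨ Q) ≤ ind P + ind Q := by
  unfold ind
  by_cases hP : P <;> by_cases hQ : Q <;> simp [hP, hQ]

theorem ind_mono {P Q : Prop} (h : P → Q) : ind P ≤ ind Q := by
  unfold ind
  by_cases hP : P
  · rw [if_pos hP, if_pos (h hP)]
  · rw [if_neg hP]
    split_ifs <;> norm_num

theorem ind_exists {ι : Type} [Fintype ι] (P : ι → Prop) : ind (∃ i, P i) ≤ ∑ i, ind (P i) := by
  by_cases h : ∃ i, P i
  · obtain ⟨i, hi⟩ := h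
    have h1 : ind (P i) = 1 := if_pos hi
    have h2 : ind (∃ i, P i) = 1 := if_pos ⟨i, hi⟩
    rw [h2, ← h1]
    exact Finset.single_le_sum (f := fun i => ind (P i)) (fun j _ => ind_nonneg _)
      (Finset.mem_univ i)
  · have h2 : ind (∃ i, P i) = 0 := if_neg h
    rw [h2]
    exact Finset.sum_nonneg fun j _ => ind_nonneg _

end small

variable {Ω₀ : Type} [Fintype Ω₀] {B A τ : Type} {c k : ℕ}
  {p₀ : Ω₀ → ℝ} {b₀ : Ω₀ → B} {n₀ : Ω₀ → Fin c → ℤ}

section pos

variable {G : Type} [AddCommGroup G] {Ξ Λ : Type} [Fintype Ξ] [Fintype Λ] {ρ : Ξ → ℝ} {N : Ξ → G}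
  {θ : Λ → ℝ} {φ : Λ → G}

theorem cost_nn (hρ : IsLaw ρ) (hθ : IsLaw θ) :
    0 ≤ H (pr θ ρ) (fun w => N w.2 + φ w.1) - H ρ N := by
  have h := leg_most (N := N) φ hρ.nonneg hρ.sum_one hθ.nonneg hθ.sum_one (t := 0)
  rwa [zero_mul] at h

theorem dif_nn (hρ : IsLaw ρ) : 0 ≤ H (pr ρ ρ) (fun w => N w.1 - N w.2) - H ρ N := by
  have h := cost_nn (N := N) (φ := fun l => -N l) hρ hρ
  have h1 : H (pr ρ ρ) (fun w => N w.2 + -N w.1) = H (pr ρ ρ) (fun w => N w.1 - N w.2) := by
    refine H_congr (pr_nn hρ.nonneg hρ.nonneg) ?_ ?_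
    · intro w w' _ _ e
      have e' : N w.1 - N w.2 = N w'.1 - N w'.2 := e
      show N w.2 + -N w.1 = N w'.2 + -N w'.1
      have e2 : N w.2 + -N w.1 = -(N w.1 - N w.2) := by abel
      have e3 : N w'.2 + -N w'.1 = -(N w'.1 - N w'.2) := by abel
      rw [e2, e3, e']
    · intro w w' _ _ e
      have e' : N w.2 + -N w.1 = N w'.2 + -N w'.1 := e
      show N w.1 - N w.2 = N w'.1 - N w'.2
      have e2 : N w.1 - N w.2 = -(N w.2 + -N w.1) := by abel
      have e3 : N w'.1 - N w'.2 = -(N w'.2 + -N w'.1) := by abel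
      rw [e2, e3, e']
  rwa [h1] at h

end pos

section goal

variable (hp : ∀ ω, 0 ≤ p₀ ω) (V : Ω₀ → A) (T : Ω₀ → τ) (g : τ → A → Fin c → ℤ)
  (X : Blk p₀ b₀ n₀)

/-- A hop is illegal. -/
def badE (t : ℝ) (w : X.Ω × (Ω₀ × Ω₀)) : Prop := ph V T g X w ∉ LegE V T g X t (eE X w)

include hp in
theorem hop_bad (t : ℝ) : t * Ex (ed V T g X) (fun w => ind (badE V T g X t w)) ≤
    Ex X.p (fun ω => D2 V T g X (wE X ω)) := by
  classical
  have he := ed_nn hp V T g X
  rw [← Ex_cond he (eE X) (fun w => ind (badE V T g X t w)), ← Ex_smul]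
  have e1 := Ex_push (ed_fst hp V T g X) (fun ω => D2 V T g X (wE X ω))
  rw [← e1]
  refine Ex_mono he fun w hw => ?_
  have hr : IsLaw (rw' X (eE X w)) := by
    have : 0 < X.p w.1 := (ed_fst hp V T g X).pos he hw
    exact rw_law X this
  have ht := tw_law hp V T g X hw
  have k := leg_most (N := X.y) (ph V T g X) hr.nonneg hr.sum_one ht.nonneg ht.sum_one (t := t)
  refine le_trans (le_of_eq ?_) k
  congr 1
  unfold Ex
  refine Finset.sum_congr rfl fun w' _ => ?_
  by_cases h0 : 0 < tw V T g X (eE X w) w'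
  · have h1 := ((cond_pos_iff he (eE X) (eE X w) w').1 h0).2
    have h2 : badE V T g X t w' ↔ ¬ Leg (rw' X (eE X w)) X.y
        (om (rw' X (eE X w)) X.y (tw V T g X (eE X w)) (ph V T g X)) t (ph V T g X w') := by
      unfold badE LegE
      rw [h1]
      rfl
    by_cases h3 : badE V T g X t w'
    · have h4 : ind (badE V T g X t w') = 1 := if_pos h3
      simp only [h4]
      rw [if_neg (h2.1 h3), mul_one]
      rfl
    · have h4 : ind (badE V T g X t w') = 0 := if_neg h3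
      simp only [h4]
      rw [if_pos (not_not.mp fun h => h3 (h2.2 h)), mul_zero]
  · have h1 : tw V T g X (eE X w) w' = 0 := le_antisymm (not_lt.mp h0) (ht.nonneg w')
    have h2 : Pool.Agent.H49.Ent.cond (ed V T g X) (eE X) (eE X w) w' = 0 := h1
    rw [h1, h2, zero_mul]
    simp

/-- Some hop of the star is illegal. -/
def badS (t : ℝ) (J : ℕ) (v : Fin (J + 1) → X.Ω × (Ω₀ × Ω₀)) : Prop :=
  ∃ i, ph V T g X (v i) ∉ LegE V T g X t (eE X (v 0))

include hp in
theorem star_bad (t : ℝ) (J : ℕ) : Ex (st V T g X J) (fun v => ind (badS V T g X t J v)) ≤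
    (J + 1) * Ex (ed V T g X) (fun w => ind (badE V T g X t w)) := by
  classical
  have h0 := st_nn hp V T g X J
  have he := ed_nn hp V T g X
  have h1 : Ex (st V T g X J) (fun v => ind (badS V T g X t J v)) ≤
      Ex (st V T g X J) (fun v => ∑ i, ind (badE V T g X t (v i))) := by
    refine Ex_mono h0 fun v hv => ?_
    refine (ind_exists _).trans (Finset.sum_le_sum fun i _ => ind_mono fun h => ?_)
    have h1 := (st_pos hp V T g X hv i).2
    have h2 : ((v i).1, V (v i).2.1) = ((v 0).1, V (v 0).2.1) := h1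
    have h3 : eE X (v i) = eE X (v 0) := by
      show (X.x (v i).1, X.b (v i).1) = (X.x (v 0).1, X.b (v 0).1)
      rw [(Prod.ext_iff.mp h2).1]
    unfold badE
    rw [h3]
    exact h
  refine h1.trans (le_of_eq ?_)
  have h2 : Ex (st V T g X J) (fun v => ∑ i, ind (badE V T g X t (v i))) =
      ∑ i, Ex (st V T g X J) (fun v => ind (badE V T g X t (v i))) := by
    unfold Ex
    simp only [Finset.mul_sum]
    exact Finset.sum_comm
  rw [h2]
  have h3 : ∀ i : Fin (J + 1), Ex (st V T g X J) (fun v => ind (badE V T g X t (v i))) =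
      Ex (ed V T g X) (fun w => ind (badE V T g X t w)) := fun i =>
    Ex_push (Pool.SLO.tup_marg he (lE V X) J i) (fun w => ind (badE V T g X t w))
  rw [Finset.sum_congr rfl fun i _ => h3 i, Finset.sum_const, Finset.card_univ, Fintype.card_fin,
    nsmul_eq_mul]
  push_cast
  ring

/-- The relative entropy at the value `κ` of `kE`. -/
noncomputable def kk (k Xd : ℕ) (tau : τ → ℤ) (y : A → Fin k → ℤ) (J : ℕ)
    (κ : (A × (Fin J → A × τ)) × ((Fin c → ℤ) × B)) : ℝ :=
  (H (cond (st V T g X J) (kE V T X J) κ) (tS T X J) +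
    H (cond (st V T g X J) (kE V T X J) κ) (vS V X J) -
    H (cond (st V T g X J) (kE V T X J) κ) (fun v => (tS T X J v, vS V X J v))) +
  (Xd * Real.log 2 - H (cond (st V T g X J) (kE V T X J) κ) (fun v => tau (tS T X J v))) +
  (k * Xd * Real.log 2 - H (cond (st V T g X J) (kE V T X J) κ) (fun v => y (vS V X J v)))

include hp in
theorem kk_nn (k Xd : ℕ) {tau : τ → ℤ} {y : A → Fin k → ℤ}
    (htau : ∀ t, 0 ≤ tau t ∧ tau t < 2 ^ Xd) (hy : ∀ l j, 0 ≤ y l j ∧ y l j < 2 ^ Xd) (J : ℕ)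
    {v : Fin (J + 1) → X.Ω × (Ω₀ × Ω₀)} (hv : 0 < st V T g X J v) :
    0 ≤ kk V T g X k Xd tau y J (kE V T X J v) := by
  have hl : IsLaw (cond (st V T g X J) (kE V T X J) (kE V T X J v)) :=
    cond_law (st_nn hp V T g X J) (kE V T X J) hv
  have h1 := H_sub hl (tS T X J) (vS V X J)
  have h2 := H_int_le hl Xd (fun v => tau (tS T X J v)) (fun v => htau _)
  have h3 := H_vec_le hl Xd k (fun v => y (vS V X J v)) (fun v => hy _)
  unfold kk
  linarith

variable {d d0 : ℝ}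

include hp in
theorem kk_avg (hp1 : ∑ ω, p₀ ω = 1) (k Xd : ℕ) {tau : τ → ℤ} {y : A → Fin k → ℤ}
    (h1 : CH p₀ n₀ b₀ - CH p₀ n₀ (fun ω => (V ω, (T ω, b₀ ω))) ≤ d)
    (h2 : CH p₀ (fun ω => n₀ ω + g (T ω) (V ω)) (fun ω => (T ω, b₀ ω)) -
      CH p₀ (fun ω => n₀ ω + g (T ω) (V ω)) (fun ω => (V ω, (T ω, b₀ ω))) ≤ d)
    (h3 : CH p₀ T b₀ - CH p₀ T (fun ω => (V ω, (n₀ ω, b₀ ω))) ≤ d0) (J : ℕ) :
    Ex (st V T g X J) (fun v => kk V T g X k Xd tau y J (kE V T X J v)) ≤
      3 * (d + (J + 1) * (2 * d0 + d)) + (Xd * Real.log 2 - CH p₀ (fun ω => tau (T ω)) b₀) +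
        (k * Xd * Real.log 2 - CH p₀ (fun ω => y (V ω)) b₀) := by
  have h0 := st_nn hp V T g X J
  have hs := st_one hp V T g X J hp1
  have he := ed_nn hp V T g X
  have e1 : Ex (st V T g X J) (fun v => kk V T g X k Xd tau y J (kE V T X J v)) =
      (CH (st V T g X J) (tS T X J) (kE V T X J) + CH (st V T g X J) (vS V X J) (kE V T X J) -
        CH (st V T g X J) (fun v => (tS T X J v, vS V X J v)) (kE V T X J)) +
      (Xd * Real.log 2 - CH (st V T g X J) (fun v => tau (tS T X J v)) (kE V T X J)) +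
      (k * Xd * Real.log 2 - CH (st V T g X J) (fun v => y (vS V X J v)) (kE V T X J)) := by
    unfold kk
    rw [Ex_add, Ex_add, Ex_sub, Ex_add, Ex_sub, Ex_sub, Ex_const hs, Ex_const hs,
      ← CH_val h0, ← CH_val h0, ← CH_val h0, ← CH_val h0, ← CH_val h0]
  rw [e1]
  have k0 := star_full hp V T g X h1 h2 h3 J
  -- upper bounds by the context
  have hb : ∀ {Z : Type} (Y : Ω₀ → Z) {U : Type} (W : Ω₀ → U), CH (st V T g X J)
      (fun v => Y (v 0).2.1) (fun v => (W (v 0).2.1, kE V T X J v)) ≤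
      CH p₀ Y (fun ω => (W ω, b₀ ω)) := by
    intro Z Y U W
    have a1 : CH (st V T g X J) (fun v => Y (v 0).2.1) (fun v => (W (v 0).2.1, kE V T X J v)) ≤
        CH (st V T g X J) (fun v => Y (v 0).2.1) (fun v => (W (v 0).2.1, b₀ (v 0).2.1)) := by
      refine CH_mono_cond h0 ?_
      intro v v' hv hv' h
      have e := ed_eq hp V T g X (st_pos hp V T g X hv 0).1
      have e' := ed_eq hp V T g X (st_pos hp V T g X hv' 0).1
      have h4 := Prod.ext_iff.mp h
      have h5 : eE X (v 0) = eE X (v' 0) := (Prod.ext_iff.mp h4.2).2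
      have h6 : (X.x (v 0).1, X.b (v 0).1) = (X.x (v' 0).1, X.b (v' 0).1) := h5
      refine Prod.ext h4.1 ?_
      show b₀ (v 0).2.1 = b₀ (v' 0).2.1
      rw [← e.1.2, ← e'.1.2]
      exact (Prod.ext_iff.mp h6).2
    have a2 : CH (st V T g X J) (fun v => Y (v 0).2.1)
        (fun v => (W (v 0).2.1, b₀ (v 0).2.1)) = CH p₀ Y (fun ω => (W ω, b₀ ω)) := by
      have b1 := (Pool.SLO.tup_marg he (lE V X) J 0).CH (fun w => Y w.2.1)
        (fun w => (W w.2.1, b₀ w.2.1))
      have b2 := (ed_one hp V T g X).CH Y (fun ω => (W ω, b₀ ω))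
      exact b1.trans b2
    linarith
  have hb0 : ∀ {Z : Type} (Y : Ω₀ → Z), CH (st V T g X J)
      (fun v => Y (v 0).2.1) (kE V T X J) ≤ CH p₀ Y b₀ := by
    intro Z Y
    have a1 := hb Y (fun _ => ())
    have a2 : CH p₀ Y (fun ω => ((), b₀ ω)) = CH p₀ Y b₀ := by
      refine CH_congr hp ?_ ?_ ?_ ?_
      · intro w w' _ _ h
        exact (Prod.ext_iff.mp h).1
      · intro w w' _ _ h
        exact (Prod.ext_iff.mp h).1
      · intro w w' _ _ h
        exact (Prod.ext_iff.mp h).2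
      · intro w w' _ _ h
        exact Prod.ext rfl h
    have a3 : CH (st V T g X J) (fun v => Y (v 0).2.1) (fun v => ((), kE V T X J v)) =
        CH (st V T g X J) (fun v => Y (v 0).2.1) (kE V T X J) := by
      refine CH_congr h0 ?_ ?_ ?_ ?_
      · intro w w' _ _ h
        exact (Prod.ext_iff.mp h).1
      · intro w w' _ _ h
        exact (Prod.ext_iff.mp h).1
      · intro w w' _ _ h
        exact (Prod.ext_iff.mp h).2
      · intro w w' _ _ h
        exact Prod.ext rfl h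
    rw [a2, a3] at a1
    exact a1
  have k1 : CH (st V T g X J) (tS T X J) (kE V T X J) ≤ CH p₀ T b₀ := hb0 T
  have k2 : CH (st V T g X J) (vS V X J) (kE V T X J) ≤ CH p₀ V b₀ := hb0 V
  have k3 := CH_subadd h0 (tS T X J) (vS V X J) (kE V T X J)
  have k4 := CH_le_add h0 (tS T X J) (fun v => tau (tS T X J v)) (kE V T X J)
  have k5 := CH_le_add h0 (vS V X J) (fun v => y (vS V X J v)) (kE V T X J)
  have k6 : CH (st V T g X J) (tS T X J) (fun v => (tau (tS T X J v), kE V T X J v)) ≤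
      CH p₀ T (fun ω => (tau (T ω), b₀ ω)) := hb T (fun ω => tau (T ω))
  have k7 : CH (st V T g X J) (vS V X J) (fun v => (y (vS V X J v), kE V T X J v)) ≤
      CH p₀ V (fun ω => (y (V ω), b₀ ω)) := hb V (fun ω => y (V ω))
  have k8 : CH p₀ T b₀ = CH p₀ (fun ω => tau (T ω)) b₀ + CH p₀ T (fun ω => (tau (T ω), b₀ ω)) := by
    rw [← CH_chain hp]
    refine CH_congr hp ?_ ?_ (fun _ _ _ _ h => h) (fun _ _ _ _ h => h)
    · intro w w' _ _ h
      have h4 : T w = T w' := (Prod.ext_iff.mp h).1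
      show (T w, tau (T w)) = (T w', tau (T w'))
      rw [h4]
    · intro w w' _ _ h
      exact (Prod.ext_iff.mp (Prod.ext_iff.mp h).1).1
  have k9 : CH p₀ V b₀ = CH p₀ (fun ω => y (V ω)) b₀ + CH p₀ V (fun ω => (y (V ω), b₀ ω)) := by
    rw [← CH_chain hp]
    refine CH_congr hp ?_ ?_ (fun _ _ _ _ h => h) (fun _ _ _ _ h => h)
    · intro w w' _ _ h
      have h4 : V w = V w' := (Prod.ext_iff.mp h).1
      show (V w, y (V w)) = (V w', y (V w'))
      rw [h4]
    · intro w w' _ _ h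
      exact (Prod.ext_iff.mp (Prod.ext_iff.mp h).1).1
  linarith

end goal

end Pool.RC21
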