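import Pool.Agent.H21.RC.World

/-!
# Legal increments

`N` is a random element of a group, `θ` a law of increments `φ` with `H(N + φ) ≤ H(N) + ε`, and `ω`
the law of `N + φ`. An element `x` is legal if the cross entropy of `N + x` against `ω` is at most
`H(N) + t`. Most increments are legal, and every random variable all of whose values are legal, with
any law and any dependence, is absorbed by `N`. So sums of legal elements are absorbed.
-/

set_option autoImplicit false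
set_option linter.unusedSectionVars false
set_option linter.unusedVariables false

namespace Pool.RC21

open Finset
open Pool.Agent.H49.Ent Pool.Agent.H32.Dense Pool.CH30

variable {Γ Ξ Λ : Type} [Fintype Γ] [Fintype Ξ] [Fintype Λ] {G K : Type} [AddCommGroup G]

/-- The product of two laws. -/
noncomputable def pr {Γ Ξ : Type} (q : Γ → ℝ) (r : Ξ → ℝ) (w : Γ × Ξ) : ℝ := q w.1 * r w.2

section pr

variable {q : Γ → ℝ} {r : Ξ → ℝ}

theorem pr_nn (hq : ∀ ω, 0 ≤ q ω) (hr : ∀ ω, 0 ≤ r ω) : ∀ w, 0 ≤ pr q r w :=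
  fun w => mul_nonneg (hq _) (hr _)

theorem pr_one (hq1 : ∑ ω, q ω = 1) (hr1 : ∑ ω, r ω = 1) : ∑ w, pr q r w = 1 := by
  unfold pr
  rw [Fintype.sum_prod_type]
  simp only [← Finset.mul_sum, hr1, mul_one, hq1]

theorem pr_pos (hq : ∀ ω, 0 ≤ q ω) (hr : ∀ ω, 0 ≤ r ω) {w : Γ × Ξ} (hw : 0 < pr q r w) :
    0 < q w.1 ∧ 0 < r w.2 := by
  unfold pr at hw
  constructor
  · by_contra h
    rw [le_antisymm (not_lt.mp h) (hq _), zero_mul] at hw
    exact lt_irrefl _ hw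
  · by_contra h
    rw [le_antisymm (not_lt.mp h) (hr _), mul_zero] at hw
    exact lt_irrefl _ hw

theorem glue_unit (hq1 : ∑ ω, q ω = 1) :
    glue q r (fun _ => ()) (fun _ => ()) = pr q r := by
  funext w
  unfold glue pr law
  simp [hq1]

theorem Ex_pr (f : Γ × Ξ → ℝ) : Ex (pr q r) f = Ex q (fun γ => Ex r (fun ξ => f (γ, ξ))) := by
  unfold Ex pr
  rw [Fintype.sum_prod_type]
  refine Finset.sum_congr rfl fun γ _ => ?_
  rw [Finset.mul_sum]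
  exact Finset.sum_congr rfl fun ξ _ => by ring

theorem CH_unit {Ω S : Type} [Fintype Ω] {p : Ω → ℝ} (hp : ∀ ω, 0 ≤ p ω) (h1 : ∑ ω, p ω = 1)
    (X : Ω → S) : CH p X (fun _ => ()) = H p X := by
  have e1 : H p (fun ω => (X ω, ())) = H p X := by
    refine H_congr hp ?_ ?_
    · intro w w' _ _ h
      simp only at h ⊢
      rw [h]
    · intro w w' _ _ h
      exact (Prod.ext_iff.mp h).1
  unfold CH
  rw [e1, H_const h1, sub_zero]

end pr

section cost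

variable (ρ : Ξ → ℝ) (N : Ξ → G)

/-- The cross entropy of `N + x` against `ω`. -/
noncomputable def cost (om : G → ℝ) (x : G) : ℝ := Ex ρ (fun ξ => -Real.log (om (N ξ + x)))

/-- Legal elements. -/
def Leg (om : G → ℝ) (t : ℝ) (x : G) : Prop :=
  (∀ ξ, 0 < ρ ξ → 0 < om (N ξ + x)) ∧ cost ρ N om x ≤ H ρ N + t

variable {ρ N} {om : G → ℝ}

/-- Gibbs: entropy is at most cross entropy. -/
theorem H_le_cross {Ω : Type} [Fintype Ω] {p : Ω → ℝ} (hp : ∀ ω, 0 ≤ p ω) (h1 : ∑ ω, p ω = 1)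
    (X : Ω → G) (h0 : ∀ x, 0 ≤ om x) (hs : ∀ F : Finset G, ∑ x ∈ F, om x ≤ 1)
    (hpos : ∀ ω, 0 < p ω → 0 < om (X ω)) : H p X ≤ Ex p (fun ω => -Real.log (om (X ω))) := by
  rw [← CH_unit hp h1]
  exact CH_le_cross hp h1 X (fun _ => ()) (fun _ x => om x) hpos (fun _ x => h0 x)
    (fun _ _ F => hs F)

theorem cost_ge (hρ : ∀ ω, 0 ≤ ρ ω) (h1 : ∑ ω, ρ ω = 1) (h0 : ∀ x, 0 ≤ om x)
    (hs : ∀ F : Finset G, ∑ x ∈ F, om x ≤ 1) {x : G} (hx : ∀ ξ, 0 < ρ ξ → 0 < om (N ξ + x)) :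
    H ρ N ≤ cost ρ N om x := by
  have k := H_le_cross hρ h1 (fun ξ => N ξ + x) h0 hs hx
  have e : H ρ (fun ξ => N ξ + x) = H ρ N := by
    refine H_congr hρ ?_ ?_
    · intro w w' _ _ h
      show N w + x = N w' + x
      rw [h]
    · intro w w' _ _ h
      exact add_left_injective _ h
  rw [e] at k
  exact k

/-- **Any law on legal elements is absorbed.** -/
theorem leg_le (hρ : ∀ ω, 0 ≤ ρ ω) (h1 : ∑ ω, ρ ω = 1) (h0 : ∀ x, 0 ≤ om x)
    (hs : ∀ F : Finset G, ∑ x ∈ F, om x ≤ 1) {t : ℝ} {q : Γ → ℝ} (hq : ∀ ω, 0 ≤ q ω)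
    (hq1 : ∑ ω, q ω = 1) {x : Γ → G} (hx : ∀ γ, 0 < q γ → Leg ρ N om t (x γ)) :
    H (pr q ρ) (fun w => N w.2 + x w.1) ≤ H ρ N + t := by
  have hn := pr_nn hq hρ
  have k := H_le_cross (pr_nn hq hρ) (pr_one hq1 h1) (fun w => N w.2 + x w.1) h0 hs
    (fun w hw => (hx w.1 (pr_pos hq hρ hw).1).1 w.2 (pr_pos hq hρ hw).2)
  refine k.trans ?_
  rw [Ex_pr]
  have e : Ex q (fun _ => H ρ N + t) = H ρ N + t := Ex_const hq1 _
  rw [← e]
  exact Ex_mono hq (fun γ hγ => (hx γ hγ).2)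

end cost

section edges

variable {ρ : Ξ → ℝ} {N : Ξ → G} {θ : Λ → ℝ} (φ : Λ → G)

/-- The law of `N + φ`. -/
noncomputable def om (ρ : Ξ → ℝ) (N : Ξ → G) (θ : Λ → ℝ) (φ : Λ → G) (x : G) : ℝ :=
  law (pr θ ρ) (fun w => N w.2 + φ w.1) x

theorem om_nn (hρ : ∀ ω, 0 ≤ ρ ω) (hθ : ∀ ω, 0 ≤ θ ω) (x : G) : 0 ≤ om ρ N θ φ x :=
  law_nonneg (pr_nn hθ hρ) _ _

theorem om_sum (hρ : ∀ ω, 0 ≤ ρ ω) (hρ1 : ∑ ω, ρ ω = 1) (hθ : ∀ ω, 0 ≤ θ ω)
    (hθ1 : ∑ ω, θ ω = 1) (F : Finset G) : ∑ x ∈ F, om ρ N θ φ x ≤ 1 := by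
  classical
  rw [← pr_one hθ1 hρ1]
  unfold om law
  rw [Finset.sum_comm]
  refine Finset.sum_le_sum fun w _ => ?_
  rw [Finset.sum_ite_eq]
  split_ifs
  · exact le_rfl
  · exact pr_nn hθ hρ w

theorem om_pos (hρ : ∀ ω, 0 ≤ ρ ω) (hθ : ∀ ω, 0 ≤ θ ω) {l : Λ} (hl : 0 < θ l) {ξ : Ξ}
    (hξ : 0 < ρ ξ) : 0 < om ρ N θ φ (N ξ + φ l) :=
  law_pos (pr_nn hθ hρ) (fun w : Λ × Ξ => N w.2 + φ w.1) (ω := (l, ξ)) (mul_pos hl hξ)

theorem cost_avg : Ex θ (fun l => cost ρ N (om ρ N θ φ) (φ l)) =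
    H (pr θ ρ) (fun w => N w.2 + φ w.1) := by
  have e : H (pr θ ρ) (fun w => N w.2 + φ w.1) =
      Ex (pr θ ρ) (fun w => -Real.log (om ρ N θ φ (N w.2 + φ w.1))) := by
    unfold H Ex om
    rw [← Finset.sum_neg_distrib]
    exact Finset.sum_congr rfl fun w _ => by ring
  rw [e, Ex_pr]
  rfl

open Classical in
/-- **Most increments are legal.** -/
theorem leg_most (hρ : ∀ ω, 0 ≤ ρ ω) (hρ1 : ∑ ω, ρ ω = 1) (hθ : ∀ ω, 0 ≤ θ ω)
    (hθ1 : ∑ ω, θ ω = 1) {t : ℝ} :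
    t * (∑ l, if Leg ρ N (om ρ N θ φ) t (φ l) then 0 else θ l) ≤
      H (pr θ ρ) (fun w => N w.2 + φ w.1) - H ρ N := by
  have h0 := om_nn (N := N) φ hρ hθ
  have hs := om_sum (N := N) φ hρ hρ1 hθ hθ1
  have e : Ex θ (fun _ => H ρ N) = H ρ N := Ex_const hθ1 _
  rw [← cost_avg, ← e, ← Ex_sub]
  unfold Ex
  rw [Finset.mul_sum]
  refine Finset.sum_le_sum fun l _ => ?_
  rcases (hθ l).eq_or_lt with h | h
  · rw [← h]
    simp
  · have hp : ∀ ξ, 0 < ρ ξ → 0 < om ρ N θ φ (N ξ + φ l) := fun ξ hξ => om_pos φ hρ hθ h hξ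
    have hc := cost_ge hρ hρ1 h0 hs hp
    split_ifs with hl
    · rw [mul_zero]
      exact mul_nonneg h.le (by linarith)
    · have : H ρ N + t < cost ρ N (om ρ N θ φ) (φ l) := by
        by_contra hcon
        exact hl ⟨hp, not_lt.mp hcon⟩
      nlinarith

end edges

section sums

variable {ρ : Ξ → ℝ} {N : Ξ → G} {om : G → ℝ}

/-- **Sums of legal elements are absorbed, whatever their joint law.** -/
theorem leg_sum (hρ : ∀ ω, 0 ≤ ρ ω) (h1 : ∑ ω, ρ ω = 1) (h0 : ∀ x, 0 ≤ om x)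
    (hs : ∀ F : Finset G, ∑ x ∈ F, om x ≤ 1) {t ε : ℝ}
    (hd : H (pr ρ ρ) (fun w => N w.1 - N w.2) ≤ H ρ N + ε)
    {q : Γ → ℝ} (hq : ∀ ω, 0 ≤ q ω) (hq1 : ∑ ω, q ω = 1) {ι : Type} (s : Finset ι)
    (x : ι → Γ → G) (a : ι → ℤ) (hx : ∀ i ∈ s, ∀ γ, 0 < q γ → Leg ρ N om t (x i γ)) :
    H (pr (pr q ρ) ρ) (fun w => N w.1.2 - N w.2 + ∑ i ∈ s, a i • x i w.1.1) ≤
      H ρ N + ε + (∑ i ∈ s, |(a i : ℝ)|) * (ε + t) := by
  classical
  have hl : ∀ u, law q (fun _ => ()) u = law ρ (fun _ => ()) u := by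
    intro u
    unfold law
    simp [hq1, h1]
  have g1 : cp q (fun _ => ()) ρ (fun _ => ()) = pr q ρ := glue_unit hq1
  have g2 : cp2 q (fun _ => ()) ρ (fun _ => ()) = pr (pr q ρ) ρ := by
    unfold cp2
    rw [glue_unit hq1]
    exact glue_unit (pr_one hq1 h1)
  have hz : Det q (fun _ => ()) (fun _ => ()) := fun _ _ _ _ _ => rfl
  have hn1 := pr_nn hq hρ
  have hs1 := pr_one hq1 h1
  have hn2 := pr_nn (pr_nn hq hρ) hρ
  have hs2 := pr_one (pr_one hq1 h1) h1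
  have hN : CH ρ N (fun _ => ()) = H ρ N := CH_unit hρ h1 N
  -- the base
  have hbase : H (pr (pr q ρ) ρ) (fun w => N w.1.2 - N w.2) ≤ H ρ N + ε := by
    have hp : Push (pr (pr q ρ) ρ) (pr ρ ρ) (fun w => (w.1.2, w.2)) := by
      have p1 : Push (pr q ρ) ρ Prod.snd := by
        rw [← glue_unit hq1]
        exact push_snd hρ hl
      have p2 := push_left (p₂ := ρ) p1 (fun _ => ()) (fun _ => ())
      rw [glue_unit hs1, glue_unit h1] at p2
      exact p2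
    rw [hp.H (fun w => N w.1 - N w.2)]
    exact hd
  have hFd : ∀ U : Γ → G, Fd q (fun _ => ()) ρ (fun _ => ()) (fun _ => ()) N U =
      H (pr (pr q ρ) ρ) (fun w => N w.1.2 - N w.2 + U w.1.1) := by
    intro U
    unfold Fd
    rw [g2, CH_unit hn2 hs2]
  -- one term
  have hone : ∀ i ∈ s, Fd q (fun _ => ()) ρ (fun _ => ()) (fun _ => ()) N (x i) ≤
      CH ρ N (fun _ => ()) + (ε + t) := by
    intro i hi
    have k := Fd_kv hq hρ hl hz N (x i)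
    rw [g2, g1, CH_unit hn2 hs2, CH_unit hn1 hs1, hN] at k
    have k2 := leg_le hρ h1 h0 hs hq hq1 (hx i hi)
    rw [hN]
    linarith
  -- induction
  have key : ∀ s' : Finset ι, s' ⊆ s →
      Fd q (fun _ => ()) ρ (fun _ => ()) (fun _ => ()) N (fun γ => ∑ i ∈ s', a i • x i γ) ≤
        H ρ N + ε + (∑ i ∈ s', |(a i : ℝ)|) * (ε + t) := by
    intro s'
    induction s' using Finset.induction_on with
    | empty =>
      intro _
      rw [hFd]
      simpa using hbase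
    | insert i s' hi ih =>
      intro hsub
      have e1 : (fun γ => ∑ j ∈ insert i s', a j • x j γ) =
          fun γ => (∑ j ∈ s', a j • x j γ) + a i • x i γ := by
        funext γ
        rw [Finset.sum_insert hi, add_comm]
      rw [e1, Finset.sum_insert hi]
      have k := Fd_add_zsmul hq hρ hl hz N (U := fun γ => ∑ j ∈ s', a j • x j γ) (U' := x i)
        (hone i (hsub (Finset.mem_insert_self i s'))) (a i)
      have k2 := ih (fun j hj => hsub (Finset.mem_insert_of_mem hj))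
      linarith
  have k := key s (Finset.Subset.refl s)
  rw [hFd] at k
  exact k

/-- The same for `N + Σ`. -/
theorem leg_sum' (hρ : ∀ ω, 0 ≤ ρ ω) (h1 : ∑ ω, ρ ω = 1) (h0 : ∀ x, 0 ≤ om x)
    (hs : ∀ F : Finset G, ∑ x ∈ F, om x ≤ 1) {t ε : ℝ}
    (hd : H (pr ρ ρ) (fun w => N w.1 - N w.2) ≤ H ρ N + ε)
    {q : Γ → ℝ} (hq : ∀ ω, 0 ≤ q ω) (hq1 : ∑ ω, q ω = 1) {ι : Type} (s : Finset ι)
    (x : ι → Γ → G) (a : ι → ℤ) (hx : ∀ i ∈ s, ∀ γ, 0 < q γ → Leg ρ N om t (x i γ)) :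
    H (pr q ρ) (fun w => N w.2 + ∑ i ∈ s, a i • x i w.1) ≤
      H ρ N + ε + (∑ i ∈ s, |(a i : ℝ)|) * (ε + t) := by
  refine le_trans ?_ (leg_sum hρ h1 h0 hs hd hq hq1 s x a hx)
  have hn1 := pr_nn hq hρ
  have hs1 := pr_one hq1 h1
  have hn2 := pr_nn (pr_nn hq hρ) hρ
  have hs2 := pr_one (pr_one hq1 h1) h1
  -- condition on the second copy
  have c1 := CH_mono_cond hn2
    (X := fun w : (Γ × Ξ) × Ξ => N w.1.2 - N w.2 + ∑ i ∈ s, a i • x i w.1.1)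
    (W' := fun w => w.2) (W := fun _ => ()) (fun _ _ _ _ _ => rfl)
  rw [CH_unit hn2 hs2] at c1
  refine le_trans (le_of_eq ?_) c1
  have c2 : CH (pr (pr q ρ) ρ) (fun w => N w.1.2 - N w.2 + ∑ i ∈ s, a i • x i w.1.1)
      (fun w => w.2) = CH (pr (pr q ρ) ρ) (fun w => N w.1.2 + ∑ i ∈ s, a i • x i w.1.1)
      (fun w => w.2) := by
    refine CH_congr hn2 ?_ ?_ (fun _ _ _ _ h => h) (fun _ _ _ _ h => h)
    · intro w w' _ _ h
      simp only [Prod.mk.injEq] at h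
      obtain ⟨a1, a2⟩ := h
      show N w.1.2 + ∑ i ∈ s, a i • x i w.1.1 = N w'.1.2 + ∑ i ∈ s, a i • x i w'.1.1
      have e1 : N w.1.2 + ∑ i ∈ s, a i • x i w.1.1 =
          (N w.1.2 - N w.2 + ∑ i ∈ s, a i • x i w.1.1) + N w.2 := by abel
      have e2 : N w'.1.2 + ∑ i ∈ s, a i • x i w'.1.1 =
          (N w'.1.2 - N w'.2 + ∑ i ∈ s, a i • x i w'.1.1) + N w'.2 := by abel
      rw [e1, e2, a1, a2]
    · intro w w' _ _ h
      simp only [Prod.mk.injEq] at h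
      obtain ⟨a1, a2⟩ := h
      show N w.1.2 - N w.2 + ∑ i ∈ s, a i • x i w.1.1 =
        N w'.1.2 - N w'.2 + ∑ i ∈ s, a i • x i w'.1.1
      have e1 : N w.1.2 - N w.2 + ∑ i ∈ s, a i • x i w.1.1 =
          (N w.1.2 + ∑ i ∈ s, a i • x i w.1.1) - N w.2 := by abel
      have e2 : N w'.1.2 - N w'.2 + ∑ i ∈ s, a i • x i w'.1.1 =
          (N w'.1.2 + ∑ i ∈ s, a i • x i w'.1.1) - N w'.2 := by abel
      rw [e1, e2, a1, a2]
  rw [c2]
  -- independence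
  have hl : ∀ u, law (pr q ρ) (fun _ => ()) u = law ρ (fun _ => ()) u := by
    intro u
    unfold law
    simp [hs1, h1]
  have k := CH_fst_snd (T := Unit) hn1 hρ hl (X := fun w => N w.2 + ∑ i ∈ s, a i • x i w.1)
    (Y := fun ξ : Ξ => ()) (fun _ _ _ _ h => h)
  have k2 : CH (glue (pr q ρ) ρ (fun _ => ()) (fun _ => ()))
      (fun w => N w.1.2 + ∑ i ∈ s, a i • x i w.1.1) (fun w => w.2) =
      CH (pr q ρ) (fun w => N w.2 + ∑ i ∈ s, a i • x i w.1) (fun _ => ()) := by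
    have e1 := H_glue_pair hn1 hρ hl (X := fun w => ((N w.2 + ∑ i ∈ s, a i • x i w.1 : G), ()))
      (Y := fun ξ : Ξ => (ξ, ())) (fun _ _ _ _ h => rfl) (fun _ _ _ _ h => rfl)
    have e2 : H (glue (pr q ρ) ρ (fun _ => ()) (fun _ => ())) (fun w => w.2) = H ρ (fun ξ => ξ) :=
      H_glue_snd hρ hl (fun ξ => ξ)
    have e3 : H (glue (pr q ρ) ρ (fun _ => ()) (fun _ => ()))
        (fun w => (N w.1.2 + ∑ i ∈ s, a i • x i w.1.1, w.2)) =
        H (glue (pr q ρ) ρ (fun _ => ()) (fun _ => ()))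
          (fun w => ((N w.1.2 + ∑ i ∈ s, a i • x i w.1.1, ()), (w.2, ()))) := by
      refine H_congr (glue_nonneg hn1 hρ) ?_ ?_
      · intro w w' _ _ h
        simp only [Prod.mk.injEq] at h ⊢
        exact ⟨h.1.1, h.2.1⟩
      · intro w w' _ _ h
        simp only [Prod.mk.injEq] at h ⊢
        exact ⟨⟨h.1, trivial⟩, h.2, trivial⟩
    have e4 : H ρ (fun ξ => (ξ, ())) = H ρ (fun ξ => ξ) := by
      refine H_congr hρ ?_ ?_
      · intro w w' _ _ h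
        simp only at h ⊢
        rw [h]
      · intro w w' _ _ h
        exact (Prod.ext_iff.mp h).1
    have e5 : H (pr q ρ) (fun _ => ()) = 0 := H_const hs1 ()
    unfold CH
    rw [e3, e1, e2, e4, e5]
    ring
  rw [glue_unit hs1] at k2
  rw [k2, CH_unit hn1 hs1]

end sums

end Pool.RC21
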