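import Pool.Agent.H21.RC.World
import Pool.Agent.H55.GEN.Ext

/-!
# The star

A block of the walk with random times, a line through its end and `J + 1` hops from this line: each
hop has its own time and its own second label through its point. The time of the first hop and the
label of the line are almost independent, and almost independent of everything else.
-/

set_option autoImplicit false
set_option linter.unusedSectionVars false
set_option linter.unusedVariables false

namespace Pool.RC21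

open Finset
open Pool.Agent.H49.Ent Pool.Agent.H32.Dense Pool.CH30 Pool.STK

variable {Ω₀ : Type} [Fintype Ω₀] {G B A τ : Type} [AddCommGroup G]
  {p₀ : Ω₀ → ℝ} {b₀ : Ω₀ → B} {n₀ : Ω₀ → G}

/-- Entropy of finitely many labels. -/
theorem CH_fin_le {Ω L K : Type} [Fintype Ω] {p : Ω → ℝ} (hp : ∀ ω, 0 ≤ p ω) {c : ℝ} (g : Ω → K) :
    ∀ (n : ℕ) (l : Fin n → Ω → L), (∀ i, CH p (l i) g ≤ c) →
      CH p (fun ω i => l i ω) g ≤ n * c := by
  intro n
  induction n with
  | zero =>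
    intro l _
    rw [CH_eq_zero hp (fun ω ω' _ _ _ => funext fun i => Fin.elim0 i)]
    simp
  | succ n ih =>
    intro l hl
    have h1 := CH_subadd hp (l 0) (fun ω (i : Fin n) => l i.succ ω) g
    have h2 := ih (fun i => l i.succ) (fun i => hl i.succ)
    have h3 := hl 0
    have h4 : CH p (fun ω i => l i ω) g ≤
        CH p (fun ω => (l 0 ω, fun i : Fin n => l i.succ ω)) g := by
      refine CH_mono_left hp fun ω ω' _ _ e => ?_
      have e1 := (Prod.ext_iff.mp e).1
      funext i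
      refine Fin.cases ?_ (fun j => ?_) i
      · exact (Prod.ext_iff.mp e1).1
      · exact congrFun (Prod.ext_iff.mp e1).2 j
    push_cast
    linarith

section star

variable (hp : ∀ ω, 0 ≤ p₀ ω) (V : Ω₀ → A) (T : Ω₀ → τ) (g : τ → A → G) (X : Blk p₀ b₀ n₀)

/-- The block and the first label of the hop. -/
def lE (w : X.Ω × (Ω₀ × Ω₀)) : X.Ω × A := (w.1, V w.2.1)

/-- The time and the second label of the hop. -/
def hE (w : X.Ω × (Ω₀ × Ω₀)) : A × τ := (V w.2.2, T w.2.1)

/-- The star. -/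
noncomputable def st (J : ℕ) : (Fin (J + 1) → X.Ω × (Ω₀ × Ω₀)) → ℝ :=
  Pool.SLO.tup (ed V T g X) (lE V X) J

/-- The world, the second label of the hop `0`, and all other hops. -/
def kE (J : ℕ) (v : Fin (J + 1) → X.Ω × (Ω₀ × Ω₀)) : (A × (Fin J → A × τ)) × (G × B) :=
  ((V (v 0).2.2, fun j => hE V T X (v j.succ)), eE X (v 0))

/-- The time of the hop `0`. -/
def tS (J : ℕ) (v : Fin (J + 1) → X.Ω × (Ω₀ × Ω₀)) : τ := T (v 0).2.1

/-- The label of the line. -/
def vS (J : ℕ) (v : Fin (J + 1) → X.Ω × (Ω₀ × Ω₀)) : A := V (v 0).2.1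

include hp in
theorem st_nn (J : ℕ) : ∀ v, 0 ≤ st V T g X J v :=
  Pool.SLO.tup_nonneg (ed_nn hp V T g X) _ J

include hp in
theorem st_one (J : ℕ) (h1 : ∑ ω, p₀ ω = 1) : ∑ v, st V T g X J v = 1 := by
  have h0 := (Pool.SLO.tup_marg (ed_nn hp V T g X) (lE V X) J 0).sum
  have h2 := (ed_one hp V T g X).sum
  unfold st
  rw [h0, h2, h1]

include hp in
theorem st_pos {J : ℕ} {v : Fin (J + 1) → X.Ω × (Ω₀ × Ω₀)} (h : 0 < st V T g X J v)
    (j : Fin (J + 1)) : 0 < ed V T g X (v j) ∧ lE V X (v j) = lE V X (v 0) :=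
  ⟨((Pool.SLO.tup_pos_iff (ed_nn hp V T g X) _ J v).1 h).1 j,
    ((Pool.SLO.tup_pos_iff (ed_nn hp V T g X) _ J v).1 h).2 j⟩

include hp in
/-- A function of the second component, given the block and a function of it. -/
theorem ed_cond {S U : Type} (Y : Ω₀ × Ω₀ → S) (Z : Ω₀ × Ω₀ → U) :
    CH (ed V T g X) (fun w => Y w.2) (fun w => (w.1, Z w.2)) =
      CH (pE p₀ V T g n₀ b₀) Y (fun w => (Z w, (n₀ w.1, b₀ w.1))) := by
  have hE := pE_nn (b₀ := b₀) (n₀ := n₀) hp V T g
  have h0 := ed_nn hp V T g X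
  rw [← CH_snd_pair (T := G × B) X.nn hE (ed_law hp V T g X) (X := fun ω => ω)
      (fun ω ω' _ _ h => by
        simp only at h
        rw [h]) Y
      (Y' := fun w => (Z w, (n₀ w.1, b₀ w.1))) (fun _ _ _ _ h => (Prod.ext_iff.mp h).2)]
  refine CH_congr h0 ?_ ?_ ?_ ?_
  · intro w w' _ _ h
    exact (Prod.ext_iff.mp h).1
  · intro w w' _ _ h
    exact (Prod.ext_iff.mp h).1
  · intro w w' hw hw' h
    simp only [Prod.mk.injEq] at h ⊢
    have e := ed_eq hp V T g X hw
    have e' := ed_eq hp V T g X hw'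
    rw [← e.1.1, ← e'.1.1, ← e.1.2, ← e'.1.2, h.1]
    exact ⟨rfl, h.2, rfl, rfl⟩
  · intro w w' hw hw' h
    simp only [Prod.mk.injEq] at h ⊢
    exact ⟨h.1, h.2.1⟩

include hp in
/-- The time and the second label, given the line. -/
theorem hop_line : CH (ed V T g X) (hE V T X) (lE V X) =
    CH p₀ T (fun ω => (V ω, (n₀ ω, b₀ ω))) + CH p₀ V (pt V T g n₀ b₀) := by
  have hE' := pE_nn (b₀ := b₀) (n₀ := n₀) hp V T g
  have h1 : CH (ed V T g X) (hE V T X) (lE V X) =
      CH (pE p₀ V T g n₀ b₀) (fun w => (V w.2, T w.1)) (fun w => (V w.1, (n₀ w.1, b₀ w.1))) :=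
    ed_cond hp V T g X (fun w => (V w.2, T w.1)) (fun w => V w.1)
  rw [h1, CH_chain hE']
  have h2 : CH (pE p₀ V T g n₀ b₀) (fun w => T w.1) (fun w => (V w.1, (n₀ w.1, b₀ w.1))) =
      CH p₀ T (fun ω => (V ω, (n₀ ω, b₀ ω))) :=
    (pE_fst hp V T g).CH T (fun ω => (V ω, (n₀ ω, b₀ ω)))
  have h3 : CH (pE p₀ V T g n₀ b₀) (fun ω => V ω.2)
        (fun ω => (V ω.1, (n₀ ω.1, (T ω.1, b₀ ω.1)))) =
        CH p₀ V (pt V T g n₀ b₀) :=
      CH_snd_fst (T := G × (τ × B)) (Z₁ := pt V T g n₀ b₀) (Z₂ := pt V T g n₀ b₀) hp hp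
        (fun _ => rfl) (X := fun ω => (V ω, (n₀ ω, (T ω, b₀ ω))))
        (by
          intro w w' _ _ h
          simp only [pt, Prod.mk.injEq] at h ⊢
          obtain ⟨a, b, c, e⟩ := h
          rw [a, b, c]; exact ⟨rfl, rfl, e⟩) V
  have h4 : CH (pE p₀ V T g n₀ b₀) (fun w => V w.2)
      (fun w => (T w.1, (V w.1, (n₀ w.1, b₀ w.1)))) =
      CH (pE p₀ V T g n₀ b₀) (fun ω => V ω.2)
        (fun ω => (V ω.1, (n₀ ω.1, (T ω.1, b₀ ω.1)))) := by
    refine CH_congr hE' ?_ ?_ ?_ ?_ <;>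
    · intro w w' _ _ h
      simp only [Prod.mk.injEq] at h ⊢
      tauto
  rw [h2, h4, h3]

include hp in
/-- Everything about the hops given the world is bounded below. -/
theorem star_low (J : ℕ) :
    CH p₀ V (fun ω => (n₀ ω, b₀ ω)) +
        (J + 1) * (CH p₀ T (fun ω => (V ω, (n₀ ω, b₀ ω))) + CH p₀ V (pt V T g n₀ b₀)) ≤
      CH (st V T g X J) (fun v => ((fun j => hE V T X (v j)), vS V X J v))
        (fun v => eE X (v 0)) := by
  have h0 := st_nn hp V T g X J
  have he := ed_nn hp V T g X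
  have a1 : CH (st V T g X J) (fun v => ((fun j => hE V T X (v j)), vS V X J v))
      (fun v => (v 0).1) ≤
      CH (st V T g X J) (fun v => ((fun j => hE V T X (v j)), vS V X J v))
        (fun v => eE X (v 0)) := by
    refine CH_mono_cond h0 ?_
    intro v v' _ _ h
    have h' : (v 0).1 = (v' 0).1 := h
    show (X.x (v 0).1, X.b (v 0).1) = (X.x (v' 0).1, X.b (v' 0).1)
    rw [h']
  have a2 := CH_chain h0 (fun v => (fun j => hE V T X (v j))) (vS V X J) (fun v => (v 0).1)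
  have a3 : CH (st V T g X J) (vS V X J) (fun v => (v 0).1) = CH p₀ V (fun ω => (n₀ ω, b₀ ω)) := by
    have b1 : CH (st V T g X J) (vS V X J) (fun v => (v 0).1) =
        CH (ed V T g X) (fun w => V w.2.1) (fun w => w.1) :=
      (Pool.SLO.tup_marg he (lE V X) J 0).CH (fun w => V w.2.1) (fun w => w.1)
    have b2 := ed_cond hp V T g X (fun w => V w.1) (fun _ => ())
    have b3 : CH (ed V T g X) (fun w => V w.2.1) (fun w => w.1) =
        CH (ed V T g X) (fun w => V w.2.1) (fun w => (w.1, ())) := by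
      refine CH_congr he ?_ ?_ ?_ ?_
      · intro w w' _ _ h
        exact (Prod.ext_iff.mp h).1
      · intro w w' _ _ h
        exact (Prod.ext_iff.mp h).1
      · intro w w' _ _ h
        exact Prod.ext h rfl
      · intro w w' _ _ h
        exact (Prod.ext_iff.mp h).1
    have b4 : CH (pE p₀ V T g n₀ b₀) (fun w => V w.1) (fun w => ((), (n₀ w.1, b₀ w.1))) =
        CH p₀ V (fun ω => ((), (n₀ ω, b₀ ω))) :=
      (pE_fst hp V T g).CH V (fun ω => ((), (n₀ ω, b₀ ω)))
    have b5 : CH p₀ V (fun ω => ((), (n₀ ω, b₀ ω))) = CH p₀ V (fun ω => (n₀ ω, b₀ ω)) := by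
      refine CH_congr hp ?_ ?_ ?_ ?_
      · intro w w' _ _ h
        exact (Prod.ext_iff.mp h).1
      · intro w w' _ _ h
        exact (Prod.ext_iff.mp h).1
      · intro w w' _ _ h
        exact (Prod.ext_iff.mp h).2
      · intro w w' _ _ h
        exact Prod.ext rfl h
    rw [b1, b3, b2, b4, b5]
  have a4 : CH (st V T g X J) (fun v => (fun j => hE V T X (v j)))
      (fun v => (vS V X J v, (v 0).1)) =
      (J + 1) * (CH p₀ T (fun ω => (V ω, (n₀ ω, b₀ ω))) + CH p₀ V (pt V T g n₀ b₀)) := by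
    have b1 := Pool.SLO.tup_CH he (lE V X) (hE V T X) J
    rw [← hop_line hp V T g X, ← b1]
    refine CH_congr h0 ?_ ?_ ?_ ?_
    · intro w w' _ _ h
      exact (Prod.ext_iff.mp h).1
    · intro w w' _ _ h
      exact (Prod.ext_iff.mp h).1
    · intro v v' _ _ h
      have h' := Prod.ext_iff.mp h
      exact Prod.ext h'.2 h'.1
    · intro v v' _ _ h
      have h' : ((v 0).1, V (v 0).2.1) = ((v' 0).1, V (v' 0).2.1) := h
      have h2 := Prod.ext_iff.mp h'
      exact Prod.ext h2.2 h2.1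
  rw [a3, a4] at a2
  linarith

include hp in
/-- The other hops. -/
theorem star_up (J : ℕ) : CH (st V T g X J) (fun v => (V (v 0).2.2,
      fun j : Fin J => hE V T X (v j.succ))) (fun v => eE X (v 0)) ≤
    (J + 1) * CH p₀ V b₀ + J * CH p₀ T b₀ := by
  have h0 := st_nn hp V T g X J
  have he := ed_nn hp V T g X
  -- one hop
  have k1 : ∀ {S : Type} (Y : Ω₀ × Ω₀ → S) (j : Fin (J + 1)),
      CH (st V T g X J) (fun v => Y (v j).2) (fun v => eE X (v 0)) =
        CH (ed V T g X) (fun w => Y w.2) (eE X) := by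
    intro S Y j
    rw [← (Pool.SLO.tup_marg he (lE V X) J j).CH (fun w => Y w.2) (eE X)]
    refine CH_supp h0 (fun _ _ => rfl) (fun v hv => ?_)
    have h1 := (st_pos hp V T g X hv j).2
    have h2 : ((v j).1, V (v j).2.1) = ((v 0).1, V (v 0).2.1) := h1
    show (X.x (v 0).1, X.b (v 0).1) = (X.x (v j).1, X.b (v j).1)
    rw [(Prod.ext_iff.mp h2).1]
  have k2 : CH (ed V T g X) (fun w => V w.2.2) (eE X) ≤ CH p₀ V b₀ := by
    have a1 : CH (ed V T g X) (fun w => V w.2.2) (eE X) ≤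
        CH (ed V T g X) (fun w => V w.2.2) (fun w => b₀ w.2.2) := by
      refine CH_mono_cond he ?_
      intro w w' hw hw' h
      have e := ed_eq hp V T g X hw
      have e' := ed_eq hp V T g X hw'
      have h' : (X.x w.1, X.b w.1) = (X.x w'.1, X.b w'.1) := h
      show b₀ w.2.2 = b₀ w'.2.2
      rw [← e.2.2.2, ← e'.2.2.2, ← e.1.2, ← e'.1.2]
      exact (Prod.ext_iff.mp h').2
    have a2 : CH (ed V T g X) (fun w => V w.2.2) (fun w => b₀ w.2.2) = CH p₀ V b₀ :=
      (ed_two hp V T g X).CH V b₀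
    linarith
  have k3 : CH (ed V T g X) (fun w => T w.2.1) (eE X) ≤ CH p₀ T b₀ := by
    have a1 : CH (ed V T g X) (fun w => T w.2.1) (eE X) ≤
        CH (ed V T g X) (fun w => T w.2.1) (fun w => b₀ w.2.1) := by
      refine CH_mono_cond he ?_
      intro w w' hw hw' h
      have e := ed_eq hp V T g X hw
      have e' := ed_eq hp V T g X hw'
      have h' : (X.x w.1, X.b w.1) = (X.x w'.1, X.b w'.1) := h
      show b₀ w.2.1 = b₀ w'.2.1
      rw [← e.1.2, ← e'.1.2]
      exact (Prod.ext_iff.mp h').2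
    have a2 : CH (ed V T g X) (fun w => T w.2.1) (fun w => b₀ w.2.1) = CH p₀ T b₀ :=
      (ed_one hp V T g X).CH T b₀
    linarith
  have k4 := CH_subadd h0 (fun v => V (v 0).2.2) (fun v => fun j : Fin J => hE V T X (v j.succ))
    (fun v => eE X (v 0))
  have k5 : CH (st V T g X J) (fun v => V (v 0).2.2) (fun v => eE X (v 0)) ≤ CH p₀ V b₀ := by
    rw [k1 (fun w => V w.2) 0]
    exact k2
  have k6 : CH (st V T g X J) (fun v => fun j : Fin J => hE V T X (v j.succ))
      (fun v => eE X (v 0)) ≤ J * (CH p₀ V b₀ + CH p₀ T b₀) := by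
    refine CH_fin_le h0 _ J (fun j v => hE V T X (v j.succ)) (fun j => ?_)
    have a1 := CH_subadd h0 (fun v => V (v j.succ).2.2) (fun v => T (v j.succ).2.1)
      (fun v => eE X (v 0))
    have a2 := k1 (fun w => V w.2) j.succ
    have a3 := k1 (fun w => T w.1) j.succ
    have a4 : CH (st V T g X J) (fun v => hE V T X (v j.succ)) (fun v => eE X (v 0)) ≤
        CH (st V T g X J) (fun v => V (v j.succ).2.2) (fun v => eE X (v 0)) +
        CH (st V T g X J) (fun v => T (v j.succ).2.1) (fun v => eE X (v 0)) := a1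
    linarith
  linarith

variable {d d0 : ℝ}

include hp in
/-- **The star lemma.** -/
theorem star_full (h1 : CH p₀ n₀ b₀ - CH p₀ n₀ (fun ω => (V ω, (T ω, b₀ ω))) ≤ d)
    (h2 : CH p₀ (fun ω => n₀ ω + g (T ω) (V ω)) (fun ω => (T ω, b₀ ω)) -
      CH p₀ (fun ω => n₀ ω + g (T ω) (V ω)) (fun ω => (V ω, (T ω, b₀ ω))) ≤ d)
    (h3 : CH p₀ T b₀ - CH p₀ T (fun ω => (V ω, (n₀ ω, b₀ ω))) ≤ d0) (J : ℕ) :
    CH p₀ V b₀ + CH p₀ T b₀ - (d + (J + 1) * (2 * d0 + d)) ≤
      CH (st V T g X J) (fun v => (tS T X J v, vS V X J v)) (kE V T X J) := by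
  have h0 := st_nn hp V T g X J
  have a1 := star_low hp V T g X J
  have a2 := star_up hp V T g X J
  -- chain
  have a3 : CH (st V T g X J) (fun v => ((fun j => hE V T X (v j)), vS V X J v))
        (fun v => eE X (v 0)) ≤
      CH (st V T g X J) (fun v => (V (v 0).2.2, fun j : Fin J => hE V T X (v j.succ)))
        (fun v => eE X (v 0)) +
      CH (st V T g X J) (fun v => (tS T X J v, vS V X J v)) (kE V T X J) := by
    have b1 := CH_chain h0 (fun v => (tS T X J v, vS V X J v))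
      (fun v => (V (v 0).2.2, fun j : Fin J => hE V T X (v j.succ))) (fun v => eE X (v 0))
    have b2 : CH (st V T g X J) (fun v => ((fun j => hE V T X (v j)), vS V X J v))
        (fun v => eE X (v 0)) ≤ CH (st V T g X J) (fun v => ((tS T X J v, vS V X J v),
          (V (v 0).2.2, fun j : Fin J => hE V T X (v j.succ)))) (fun v => eE X (v 0)) := by
      refine CH_mono_left h0 ?_
      intro v v' _ _ h
      have e := (Prod.ext_iff.mp h).1
      have e1 := Prod.ext_iff.mp (Prod.ext_iff.mp e).1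
      have e2 := Prod.ext_iff.mp (Prod.ext_iff.mp e).2
      refine Prod.ext ?_ e1.2
      funext j
      refine Fin.cases ?_ (fun i => ?_) j
      · exact Prod.ext e2.1 e1.1
      · exact congrFun e2.2 i
    have b3 : CH (st V T g X J) (fun v => (tS T X J v, vS V X J v))
        (fun v => ((V (v 0).2.2, fun j : Fin J => hE V T X (v j.succ)), eE X (v 0))) =
        CH (st V T g X J) (fun v => (tS T X J v, vS V X J v)) (kE V T X J) := rfl
    rw [b3] at b1
    linarith
  -- the base law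
  have c1 := dep_symm hp n₀ V b₀
  have c2 : CH p₀ n₀ (fun ω => (V ω, (T ω, b₀ ω))) ≤ CH p₀ n₀ (fun ω => (V ω, b₀ ω)) :=
    CH_mono_cond hp (fun _ _ _ _ h => by
      simp only [Prod.mk.injEq] at h ⊢
      exact ⟨h.1, h.2.2⟩)
  have c3 := dep_symm hp (fun ω => n₀ ω + g (T ω) (V ω)) V (fun ω => (T ω, b₀ ω))
  have c4 : CH p₀ V (pt V T g n₀ b₀) =
      CH p₀ V (fun ω => (n₀ ω + g (T ω) (V ω), (T ω, b₀ ω))) := rfl
  have c5 := dep_symm hp T V b₀
  have c6 : CH p₀ T (fun ω => (V ω, (n₀ ω, b₀ ω))) ≤ CH p₀ T (fun ω => (V ω, b₀ ω)) :=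
    CH_mono_cond hp (fun _ _ _ _ h => by
      simp only [Prod.mk.injEq] at h ⊢
      exact ⟨h.1, h.2.2⟩)
  have c7 : CH p₀ V b₀ - d ≤ CH p₀ V (fun ω => (n₀ ω, b₀ ω)) := by linarith
  have c8 : CH p₀ V b₀ - d0 - d ≤ CH p₀ V (pt V T g n₀ b₀) := by
    rw [c4]
    linarith
  have c9 : (J + 1 : ℝ) * (CH p₀ T b₀ - d0 + (CH p₀ V b₀ - d0 - d)) ≤
      (J + 1) * (CH p₀ T (fun ω => (V ω, (n₀ ω, b₀ ω))) + CH p₀ V (pt V T g n₀ b₀)) := by
    refine mul_le_mul_of_nonneg_left ?_ (by positivity)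
    linarith
  nlinarith

end star

end Pool.RC21
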