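import Pool.Agent.H21.QW.Star
import Pool.Agent.H21.QW.Comb

/-!
# The world at a fixed value

`rw X e` is the law of the block given the world `e`, `tw X e` the law of the hop given the world.
The averages over the worlds of the costs are the conditional costs of `World.lean`.
-/

set_option autoImplicit false
set_option linter.unusedSectionVars false
set_option linter.unusedVariables false

namespace Pool.RC21

open Finset
open Pool.Agent.H49.Ent Pool.Agent.H32.Dense Pool.CH30 Pool.STK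

section gen

variable {Ω Ω' S T : Type} [Fintype Ω] [Fintype Ω']

/-- Averages over the values. -/
theorem Ex_val (p : Ω → ℝ) (Z : Ω → T) (f : T → ℝ) [DecidableEq T] :
    Ex p (fun ω => f (Z ω)) = ∑ z ∈ univ.image Z, law p Z z * f z := by
  classical
  unfold Ex law
  simp only [Finset.sum_mul]
  rw [Finset.sum_comm]
  refine Finset.sum_congr rfl fun ω _ => ?_
  rw [Finset.sum_eq_single (Z ω)]
  · simp
  · intro z _ hz
    rw [if_neg (Ne.symm hz), zero_mul]
  · intro h
    exact absurd (Finset.mem_image_of_mem Z (Finset.mem_univ ω)) h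

theorem CH_val {p : Ω → ℝ} (hp : ∀ ω, 0 ≤ p ω) (X : Ω → S) (Z : Ω → T) :
    CH p X Z = Ex p (fun ω => H (cond p Z (Z ω)) X) := by
  classical
  rw [Ex_val p Z (fun z => H (cond p Z z) X)]
  exact CH_eq_sum hp X Z

/-- Probabilities over the values. -/
theorem Ex_cond {p : Ω → ℝ} (hp : ∀ ω, 0 ≤ p ω) (Z : Ω → T) (f : Ω → ℝ) :
    Ex p (fun ω => Ex (cond p Z (Z ω)) f) = Ex p f := by
  classical
  rw [Ex_val p Z (fun z => Ex (cond p Z z) f)]
  have h1 : ∀ z, law p Z z * Ex (cond p Z z) f = ∑ ω, if Z ω = z then p ω * f ω else 0 := by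
    intro z
    unfold Ex
    rw [Finset.mul_sum]
    refine Finset.sum_congr rfl fun ω _ => ?_
    unfold Pool.Agent.H49.Ent.cond
    by_cases h : Z ω = z
    · rw [if_pos h, if_pos h]
      by_cases h0 : p ω = 0
      · rw [h0]
        simp
      · have hω : 0 < p ω := lt_of_le_of_ne (hp ω) (Ne.symm h0)
        have := law_pos hp Z hω
        rw [h] at this
        field_simp
    · rw [if_neg h, if_neg h]
      ring
  simp only [h1]
  rw [Finset.sum_comm]
  unfold Ex
  refine Finset.sum_congr rfl fun ω _ => ?_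
  rw [Finset.sum_eq_single (Z ω)]
  · simp
  · intro z _ hz
    rw [if_neg (Ne.symm hz)]
  · intro h
    exact absurd (Finset.mem_image_of_mem Z (Finset.mem_univ ω)) h

theorem cond_law {p : Ω → ℝ} (hp : ∀ ω, 0 ≤ p ω) (Z : Ω → T) {ω : Ω} (h : 0 < p ω) :
    IsLaw (cond p Z (Z ω)) :=
  ⟨cond_nonneg hp Z _, sum_cond p Z (law_pos hp Z h).ne'⟩

/-- A glued law at a value of the common variable is a product. -/
theorem cond_glue {q : Ω → ℝ} {r : Ω' → ℝ} (hq : ∀ ω, 0 ≤ q ω) {e : Ω → T} {f : Ω' → T}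
    (hl : ∀ z, law q e z = law r f z) (z : T) :
    cond (glue q r e f) (fun w => e w.1) z = pr (cond q e z) (cond r f z) := by
  funext w
  have h1 : law (glue q r e f) (fun w => e w.1) z = law q e z := law_glue_fst hq hl e z
  unfold pr Pool.Agent.H49.Ent.cond
  rw [h1, ← hl z]
  unfold glue
  by_cases h2 : e w.1 = z
  · by_cases h3 : f w.2 = z
    · rw [if_pos h2, if_pos (h2.trans h3.symm), if_pos h2, if_pos h3, h2]
      by_cases h4 : law q e z = 0
      · rw [h4]
        simp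
      · field_simp
    · rw [if_pos h2, if_neg (fun h => h3 (h.symm.trans h2)), if_neg h3]
      simp
  · rw [if_neg h2, if_neg h2, zero_mul]

/-- Average of a function of the value, by another law with the same values. -/
theorem Ex_push {q : Ω' → ℝ} {p : Ω → ℝ} {π : Ω' → Ω} (h : Push q p π) (f : Ω → ℝ) :
    Ex q (fun ω => f (π ω)) = Ex p f := by
  classical
  unfold Ex
  have h1 : ∀ ω, p ω = ∑ ω', if π ω' = ω then q ω' else 0 := fun ω => (h ω).symm
  simp only [h1, Finset.sum_mul]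
  rw [Finset.sum_comm]
  refine Finset.sum_congr rfl fun ω' _ => ?_
  rw [Finset.sum_eq_single (π ω')]
  · simp
  · intro ω _ hω
    rw [if_neg (Ne.symm hω), zero_mul]
  · intro h'
    exact absurd (Finset.mem_univ _) h'

end gen

variable {Ω₀ : Type} [Fintype Ω₀] {G B A τ : Type} [AddCommGroup G]
  {p₀ : Ω₀ → ℝ} {b₀ : Ω₀ → B} {n₀ : Ω₀ → G}

section world

variable (hp : ∀ ω, 0 ≤ p₀ ω) (V : Ω₀ → A) (T : Ω₀ → τ) (g : τ → A → G) (X : Blk p₀ b₀ n₀)

/-- The world of the block. -/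
def wE (ω : X.Ω) : G × B := (X.x ω, X.b ω)

/-- The block at a fixed world. -/
noncomputable def rw' (e : G × B) : X.Ω → ℝ := cond X.p (wE X) e

/-- The hop at a fixed world. -/
noncomputable def tw (e : G × B) : X.Ω × (Ω₀ × Ω₀) → ℝ := cond (ed V T g X) (eE X) e

/-- The increment of the hop. -/
def ph (w : X.Ω × (Ω₀ × Ω₀)) : G := g (T w.2.1) (V w.2.1) - g (T w.2.1) (V w.2.2)

/-- The cost of doubling at `e`. -/
noncomputable def D1 (e : G × B) : ℝ :=
  H (pr (rw' X e) (rw' X e)) (fun w => X.y w.1 - X.y w.2) - H (rw' X e) X.y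

/-- The cost of a hop at `e`. -/
noncomputable def D2 (e : G × B) : ℝ :=
  H (pr (tw V T g X e) (rw' X e)) (fun w => X.y w.2 + ph V T g X w.1) - H (rw' X e) X.y

/-- The legal increments at `e`. -/
def LegE (t : ℝ) (e : G × B) : Set G :=
  {x | Leg (rw' X e) X.y (om (rw' X e) X.y (tw V T g X e) (ph V T g X)) t x}

theorem Ex_Hw : Ex X.p (fun ω => H (rw' X (wE X ω)) X.y) = X.h := (CH_val X.nn X.y (wE X)).symm

theorem D1_avg : Ex X.p (fun ω => D1 X (wE X ω)) ≤ X.dbl.h + X.dbl.t - X.h := by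
  classical
  have h1 : Ex X.p (fun ω => D1 X (wE X ω)) =
      Ex X.p (fun ω => H (pr (rw' X (wE X ω)) (rw' X (wE X ω))) (fun w => X.y w.1 - X.y w.2)) -
        X.h := by
    rw [← Ex_Hw X, ← Ex_sub]
    rfl
  rw [h1]
  have hr := X.nn
  have hg := glue_nonneg (Z₁ := wE X) (Z₂ := wE X) hr hr
  -- the doubled law
  have h2 : Ex X.p (fun ω => H (pr (rw' X (wE X ω)) (rw' X (wE X ω)))
      (fun w => X.y w.1 - X.y w.2)) =
      CH (glue X.p X.p (wE X) (wE X)) (fun w => X.y w.1 - X.y w.2) (fun w => wE X w.1) := by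
    rw [CH_val hg]
    have e1 : (fun w : X.Ω × X.Ω => H (cond (glue X.p X.p (wE X) (wE X))
        (fun w => wE X w.1) (wE X w.1)) (fun w => X.y w.1 - X.y w.2)) =
        fun w => (fun ω => H (pr (rw' X (wE X ω)) (rw' X (wE X ω)))
          (fun w => X.y w.1 - X.y w.2)) w.1 := by
      funext w
      rw [cond_glue hr (fun _ => rfl)]
      rfl
    rw [e1]
    exact (Ex_push (push_fst hr (fun _ => rfl)) _).symm
  rw [h2]
  have h3 := base_le (q := X.p) (e := wE X) X hr (fun _ => rfl) (z := wE X) (fun _ _ _ _ h => h)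
  have hsnd : Push (cp X.p (wE X) X.p (wE X)) X.p Prod.snd := push_snd hr (fun _ => rfl)
  have g1 : cp2 X.p (wE X) X.p (wE X) = glue (cp X.p (wE X) X.p (wE X)) X.p
      (fun w => wE X w.2) (wE X) :=
    glue_congr (glue_nonneg hr hr) (fun w hw => glue_eq hw hr hr)
  have hpush : Push (cp2 X.p (wE X) X.p (wE X)) (glue X.p X.p (wE X) (wE X))
      (fun w => (w.1.2, w.2)) := by
    rw [g1]
    exact push_left (p₂ := X.p) hsnd (wE X) (wE X)
  have h4 : CH (cp2 X.p (wE X) X.p (wE X)) (fun w => X.y w.1.2 - X.y w.2)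
      (fun w => wE X w.1.1) =
      CH (glue X.p X.p (wE X) (wE X)) (fun w => X.y w.1 - X.y w.2) (fun w => wE X w.1) := by
    rw [← hpush.CH (fun w => X.y w.1 - X.y w.2) (fun w => wE X w.1)]
    refine CH_supp (cp2_nn (e := wE X) (f := wE X) hr hr) (fun _ _ => rfl) (fun w hw => ?_)
    rw [g1] at hw
    have h5 := (glue_pos_iff (glue_nonneg hr hr) hr w).mp hw
    exact glue_eq h5.1 hr hr
  have h6 : CH (cp2 X.p (wE X) X.p (wE X)) (fun w => X.y w.1.2 - X.y w.2)
      (fun w => wE X w.1.1) ≤ X.dbl.h + X.dbl.t := h3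
  linarith

variable {d η : ℝ}

include hp in
theorem D2_avg (h1 : CH p₀ n₀ b₀ - CH p₀ n₀ (fun ω => (V ω, (T ω, b₀ ω))) ≤ d)
    (h2 : CH p₀ (fun ω => n₀ ω + g (T ω) (V ω)) (fun ω => (T ω, b₀ ω)) -
      CH p₀ (fun ω => n₀ ω + g (T ω) (V ω)) (fun ω => (V ω, (T ω, b₀ ω))) ≤ d)
    (h3 : (Blk.comp X (stepT hp V T g)).h ≤ X.h + η) :
    Ex X.p (fun ω => D2 V T g X (wE X ω)) ≤ X.dbl.h + X.dbl.t + (η + 2 * d) - X.h := by
  classical
  have k := ed_absorb hp V T g X h1 h2 h3
  have he := ed_nn hp V T g X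
  have hl : ∀ z, law (ed V T g X) (eE X) z = law X.p (wE X) z := fun z =>
    (ed_fst hp V T g X).law (wE X) z
  have e0 : Ex X.p (fun ω => D2 V T g X (wE X ω)) =
      Ex X.p (fun ω => H (pr (tw V T g X (wE X ω)) (rw' X (wE X ω)))
        (fun w => X.y w.2 + ph V T g X w.1)) - X.h := by
    rw [← Ex_Hw X, ← Ex_sub]
    rfl
  rw [e0]
  have hg := glue_nonneg (Z₁ := eE X) (Z₂ := wE X) he X.nn
  have e2 : Ex X.p (fun ω => H (pr (tw V T g X (wE X ω)) (rw' X (wE X ω)))
      (fun w => X.y w.2 + ph V T g X w.1)) =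
      CH (glue (ed V T g X) X.p (eE X) (wE X)) (fun w => X.y w.2 + ph V T g X w.1)
        (fun w => eE X w.1) := by
    rw [CH_val hg]
    obtain ⟨F, hF⟩ : ∃ F : X.Ω → ℝ, F = fun ω => H (pr (tw V T g X (wE X ω)) (rw' X (wE X ω)))
        (fun w => X.y w.2 + ph V T g X w.1) := ⟨_, rfl⟩
    have e1 : (fun w : (X.Ω × (Ω₀ × Ω₀)) × X.Ω =>
        H (Pool.Agent.H49.Ent.cond (glue (ed V T g X) X.p (eE X) (wE X))
        (fun w => eE X w.1) (eE X w.1)) (fun w => X.y w.2 + ph V T g X w.1)) =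
        fun w => (fun w' : X.Ω × (Ω₀ × Ω₀) => F w'.1) w.1 := by
      funext w
      rw [cond_glue he hl, hF]
      rfl
    rw [e1, ← hF]
    have a1 := Ex_push (push_fst (Z₁ := eE X) (Z₂ := wE X) (p₂ := X.p) he hl)
      (fun w' : X.Ω × (Ω₀ × Ω₀) => F w'.1)
    have a2 := Ex_push (ed_fst hp V T g X) F
    rw [a1, a2]
  rw [e2]
  have k' : CH (glue (ed V T g X) X.p (eE X) (wE X)) (fun w => X.y w.2 + ph V T g X w.1)
        (fun w => eE X w.1) ≤ X.dbl.h + X.dbl.t + (η + 2 * d) := k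
  linarith

/-- The world of the block has positive weight. -/
theorem rw_law {ω : X.Ω} (h : 0 < X.p ω) : IsLaw (rw' X (wE X ω)) := cond_law X.nn (wE X) h

include hp in
theorem tw_law {w : X.Ω × (Ω₀ × Ω₀)} (h : 0 < ed V T g X w) : IsLaw (tw V T g X (eE X w)) :=
  cond_law (ed_nn hp V T g X) (eE X) h

end world

end Pool.RC21
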